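import Pool.Agent.N162.CV.Base

/-!
Points which are algebraic over a field generated by few elements.
-/

set_option autoImplicit false

open MvPolynomial

namespace Pool.Agent.N162.CV

section

variable {Ω : Type} [Field Ω]

theorem support_card {P : MvPolynomial (Fin 2) Ω} {k : ℕ} (h : P.totalDegree ≤ k) :
    2 * P.coeffs.card ≤ (k + 1) * (k + 2) := by
  classical
  have h1 : P.coeffs.card ≤ P.support.card := by
    unfold coeffs
    convert Finset.card_image_le
  have h2 : P.support.card ≤ ((Finset.range (k + 1)).sigma fun i => Finset.range (i + 1)).card := by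
    refine Finset.card_le_card_of_injOn (fun e => ⟨e 0 + e 1, e 0⟩) ?_ ?_
    · intro e he
      have h3 := le_totalDegree he
      rw [Finsupp.sum_fintype _ _ (fun _ => rfl), Fin.sum_univ_two] at h3
      simp only [Finset.coe_sigma, Finset.coe_range, Set.mem_sigma_iff, Set.mem_Iio]
      omega
    · intro e _ f _ hef
      simp only [Sigma.mk.injEq, heq_eq_eq] at hef
      ext i
      fin_cases i
      · exact hef.2
      · have := hef.1
        have := hef.2
        change e 1 = f 1
        omega
  have h3 : ((Finset.range (k + 1)).sigma fun i => Finset.range (i + 1)).card * 2 =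
      (k + 1) * (k + 2) := by
    rw [Finset.card_sigma]
    simp only [Finset.card_range]
    have h4 := Finset.sum_range_succ' (fun i => i) (k + 1)
    have h5 := Finset.sum_range_id_mul_two (k + 2)
    rw [h4] at h5
    simp only [add_zero] at h5
    rw [h5]
    have h6 : k + 2 - 1 = k + 1 := by omega
    rw [h6]
    ring
  omega

theorem exists_map {L : Type} [Field L] [Algebra L Ω] {A : MvPolynomial (Fin 2) Ω}
    (hA : (A.coeffs : Set Ω) ⊆ Set.range (algebraMap L Ω)) :
    ∃ A0 : MvPolynomial (Fin 2) L, map (algebraMap L Ω) A0 = A :=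
  mem_range_map_iff_coeffs_subset.2 hA

theorem td_map {L : Type} [Field L] [Algebra L Ω] (A0 : MvPolynomial (Fin 2) L) :
    (map (algebraMap L Ω) A0).totalDegree = A0.totalDegree := by
  unfold totalDegree
  rw [support_map_of_injective _ (algebraMap L Ω).injective]

theorem relPrime_of_map {L : Type} [Field L] [Algebra L Ω] {A0 B0 : MvPolynomial (Fin 2) L}
    (h : IsRelPrime (map (algebraMap L Ω) A0) (map (algebraMap L Ω) B0)) (hA0 : A0 ≠ 0) :
    IsRelPrime A0 B0 := by
  intro D hD hD'
  have h1 := h (map_dvd (map (algebraMap L Ω)) hD) (map_dvd (map (algebraMap L Ω)) hD')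
  have hD0 : D ≠ 0 := by
    rintro rfl
    exact hA0 (zero_dvd_iff.1 hD)
  have h2 : D.totalDegree = 0 := by
    rw [← td_map (Ω := Ω)]
    obtain ⟨c, hc, hc'⟩ := MvPolynomial.isUnit_iff_eq_C_of_isReduced.1 h1
    rw [hc', totalDegree_C]
  rw [totalDegree_eq_zero_iff_eq_C] at h2
  rw [h2]
  refine IsUnit.map C (isUnit_iff_ne_zero.2 fun h3 => ?_)
  rw [h3, C_0] at h2
  exact hD0 h2

/-- the second coordinate is algebraic -/
theorem alg_second {L : Type} [Field L] [Algebra L Ω] {A : MvPolynomial (Fin 2) Ω}
    (hA : (A.coeffs : Set Ω) ⊆ Set.range (algebraMap L Ω)) (hM : MonicY A) {x y : Ω}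
    (hx : IsAlgebraic L x) (h : eval ![x, y] A = 0) : IsAlgebraic L y := by
  classical
  let K1 := algebraicClosure L Ω
  have hAc : (A.coeffs : Set Ω) ⊆ Set.range (algebraMap K1 Ω) := by
    intro a ha
    obtain ⟨b, hb⟩ := hA ha
    refine ⟨algebraMap L K1 b, ?_⟩
    rw [← hb]
    exact (IsScalarTower.algebraMap_apply L K1 Ω b).symm
  obtain ⟨A1, hA1⟩ := mem_range_map_iff_coeffs_subset.2 hAc
  obtain ⟨x1, hx1⟩ : ∃ x1 : K1, algebraMap K1 Ω x1 = x :=
    ⟨⟨x, mem_algebraicClosure_iff.2 hx⟩, rfl⟩
  have htd : A1.totalDegree = A.totalDegree := by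
    rw [← hA1, td_map]
  have hM1 : A1.coeff (Finsupp.single 1 A.totalDegree) ≠ 0 := by
    intro h0
    apply hM
    have h1 : A.coeff (Finsupp.single 1 A.totalDegree) =
        algebraMap K1 Ω (A1.coeff (Finsupp.single 1 A.totalDegree)) := by
      conv_lhs => rw [← hA1, coeff_map, td_map, htd]
    rw [h1, h0, map_zero]
  have hq : (aeval (![Polynomial.C x1, Polynomial.X] : Fin 2 → Polynomial K1) A1).coeff
      A.totalDegree = A1.coeff (Finsupp.single 1 A.totalDegree) := by
    rw [aeval_eq_eval₂Hom, coe_eval₂Hom, eval₂_eq', Polynomial.finset_sum_coeff]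
    rw [Finset.sum_eq_single (Finsupp.single 1 A.totalDegree)]
    · rw [Fin.prod_univ_two]
      simp [Polynomial.algebraMap_eq]
    · intro e he hne
      rw [Fin.prod_univ_two]
      have h3 := le_totalDegree he
      rw [htd, Finsupp.sum_fintype _ _ (fun _ => rfl), Fin.sum_univ_two] at h3
      have h4 : e 1 ≠ A.totalDegree := by
        intro h4
        apply hne
        ext i
        fin_cases i
        · change e 0 = _
          simp
          omega
        · change e 1 = _
          simp [h4]
      simp only [Matrix.cons_val_zero, Matrix.cons_val_one, Polynomial.algebraMap_eq, ← mul_assoc,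
        ← Polynomial.C_pow, ← Polynomial.C_mul]
      rw [Polynomial.coeff_C_mul, Polynomial.coeff_X_pow, if_neg (Ne.symm h4), mul_zero]
    · intro h5
      rw [notMem_support_iff] at h5
      rw [h5]
      simp
  have hq0 : aeval (![Polynomial.C x1, Polynomial.X] : Fin 2 → Polynomial K1) A1 ≠ 0 := by
    intro h0
    rw [h0, Polynomial.coeff_zero] at hq
    exact hM1 hq.symm
  have halg : IsAlgebraic K1 y := by
    refine ⟨_, hq0, ?_⟩
    have h1 : ((Polynomial.aeval y).comp (aeval (![Polynomial.C x1, Polynomial.X] :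
        Fin 2 → Polynomial K1))) A1 = aeval ![x, y] A1 := by
      congr 1
      refine algHom_ext fun i => ?_
      fin_cases i
      · simp [hx1]
      · simp
    change ((Polynomial.aeval y).comp (aeval (![Polynomial.C x1, Polynomial.X] :
        Fin 2 → Polynomial K1))) A1 = 0
    rw [h1, ← h, ← hA1, eval_map]
    rfl
  exact halg.restrictScalars L

end

end Pool.Agent.N162.CV
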