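import Pool.Agent.N162.CV.Pl

/-!
Weighted points in space, projections to the plane.
-/

set_option autoImplicit false

open MvPolynomial

namespace Pool.Agent.N162.CV

section

variable {Ω : Type} [Field Ω]

/-- the weighted sum of the values of `P` -/
noncomputable def Lam (κ : (Fin 4 → Ω) → Ω) (P : MvPolynomial (Fin 4) Ω) :
    ((Fin 4 → Ω) →₀ ℤ) →+ Ω :=
  Finsupp.liftAddHom fun p => (AddMonoidHom.mulRight (κ p * eval p P)).comp (Int.castAddHom Ω)

theorem Lam_apply (κ : (Fin 4 → Ω) → Ω) (P : MvPolynomial (Fin 4) Ω) (c : (Fin 4 → Ω) →₀ ℤ) :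
    Lam κ P c = ∑ p ∈ c.support, (c p : Ω) * (κ p * eval p P) := rfl

theorem Lam_of_subset (κ : (Fin 4 → Ω) → Ω) (P : MvPolynomial (Fin 4) Ω) (c : (Fin 4 → Ω) →₀ ℤ)
    {Q : Finset (Fin 4 → Ω)} (h : ∀ p, c p ≠ 0 → p ∈ Q) :
    Lam κ P c = ∑ p ∈ Q, (c p : Ω) * (κ p * eval p P) := by
  rw [Lam_apply]
  refine Finset.sum_subset (fun p hp => h p (Finsupp.mem_support_iff.1 hp)) fun p _ hp => ?_
  rw [Finsupp.notMem_support_iff.1 hp, Int.cast_zero, zero_mul]

/-- all forms of degree `m` have weighted sum zero -/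
def Rel (m : ℕ) (κ : (Fin 4 → Ω) → Ω) (c : (Fin 4 → Ω) →₀ ℤ) : Prop :=
  ∀ P : MvPolynomial (Fin 4) Ω, P.IsHomogeneous m → Lam κ P c = 0

/-- the projection to the plane -/
def pr (t : Ω) (p : Fin 4 → Ω) : Fin 2 → Ω := ![p 1, p 2 + t * p 3]

theorem exists_form (t : Ω) (m : ℕ) (P : MvPolynomial (Fin 2) Ω) (hP : P.totalDegree ≤ m) :
    ∃ Q : MvPolynomial (Fin 4) Ω, Q.IsHomogeneous m ∧
      ∀ p : Fin 4 → Ω, p 0 = 1 → eval p Q = eval (pr t p) P := by
  classical
  refine ⟨∑ e ∈ P.support, C (P.coeff e) * (X 1 ^ e 0 * (X 2 + C t * X 3) ^ e 1 *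
    X 0 ^ (m - e 0 - e 1)), ?_, ?_⟩
  · refine IsHomogeneous.sum _ _ _ fun e he => ?_
    have h1 : e 0 + e 1 ≤ m := by
      have h2 := le_totalDegree he
      rw [Finsupp.sum_fintype _ _ (fun _ => rfl), Fin.sum_univ_two] at h2
      omega
    have h3 : (X 1 ^ e 0 * (X 2 + C t * X 3) ^ e 1 * X 0 ^ (m - e 0 - e 1) :
        MvPolynomial (Fin 4) Ω).IsHomogeneous (1 * e 0 + 1 * e 1 + 1 * (m - e 0 - e 1)) := by
      refine ((isHomogeneous_X _ _).pow _ |>.mul ((IsHomogeneous.add (isHomogeneous_X _ _) ?_).pow _)).mul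
        ((isHomogeneous_X _ _).pow _)
      have h4 := (isHomogeneous_C (Fin 4) t).mul (isHomogeneous_X Ω (3 : Fin 4))
      rwa [zero_add] at h4
    have h5 := (isHomogeneous_C (Fin 4) (P.coeff e)).mul h3
    have h6 : 0 + (1 * e 0 + 1 * e 1 + 1 * (m - e 0 - e 1)) = m := by omega
    rwa [h6] at h5
  · intro p hp
    rw [map_sum]
    conv_rhs => rw [P.as_sum, map_sum]
    refine Finset.sum_congr rfl fun e _ => ?_
    rw [eval_monomial, Finsupp.prod_fintype _ _ (fun i => pow_zero _), Fin.prod_univ_two]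
    simp [pr, hp]

theorem toPlane {m : ℕ} {κ : (Fin 4 → Ω) → Ω} {c : (Fin 4 → Ω) →₀ ℤ} (h : Rel m κ c)
    (h0 : ∀ p, c p ≠ 0 → p 0 = 1) (t : Ω) :
    PRel m c.support (pr t) (fun p => (c p : Ω) * κ p) := by
  intro P hP
  obtain ⟨Q, hQ, hQe⟩ := exists_form t m P hP
  rw [← h Q hQ, Lam_apply]
  refine Finset.sum_congr rfl fun p hp => ?_
  rw [hQe p (h0 p (Finsupp.mem_support_iff.1 hp)), mul_assoc]

theorem mulH {ι : Type} {m k : ℕ} {S : Finset ι} {p : ι → Fin 2 → Ω} {lam : ι → Ω}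
    (h : PRel m S p lam) (H : MvPolynomial (Fin 2) Ω) (hH : H.totalDegree + k ≤ m)
    {S' : Finset ι} (hS' : S' ⊆ S) (hS : ∀ i ∈ S, i ∉ S' → eval (p i) H = 0) :
    PRel k S' p (fun i => lam i * eval (p i) H) := by
  intro P hP
  rw [← h (H * P) ((totalDegree_mul _ _).trans (by omega))]
  rw [← Finset.sum_subset hS']
  · refine Finset.sum_congr rfl fun i _ => ?_
    rw [map_mul, mul_assoc]
  · intro i hi hi'
    rw [map_mul, hS i hi hi', zero_mul, mul_zero]

/-- few points cannot have a relation -/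
theorem few {ι : Type} {m : ℕ} {S : Finset ι} {p : ι → Fin 2 → Ω} {lam : ι → Ω}
    (h : PRel m S p lam) (hp : Set.InjOn p S) (hS : S.card ≤ m + 1) :
    ∀ i ∈ S, lam i = 0 := by
  classical
  intro i hi
  have h1 : ∀ j : ι, ∃ L : MvPolynomial (Fin 2) Ω, j ∈ S → j ≠ i →
      L.totalDegree ≤ 1 ∧ eval (p j) L = 0 ∧ eval (p i) L ≠ 0 := by
    intro j
    by_cases hj : j ∈ S ∧ j ≠ i
    · have h2 : p j ≠ p i := fun h => hj.2 (hp hj.1 hi h)
      obtain ⟨a, ha⟩ := Function.ne_iff.1 h2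
      refine ⟨X a - C (p j a), fun _ _ => ⟨?_, ?_, ?_⟩⟩
      · refine (totalDegree_sub _ _).trans ?_
        rw [totalDegree_X, totalDegree_C]
        simp
      · rw [map_sub, eval_X, eval_C, sub_self]
      · rw [map_sub, eval_X, eval_C]
        exact sub_ne_zero.2 (Ne.symm ha)
    · exact ⟨0, fun h1 h2 => absurd ⟨h1, h2⟩ hj⟩
  choose L hL using h1
  have h3 := h (∏ j ∈ S.erase i, L j) (by
    refine (totalDegree_finset_prod _ _).trans ?_
    refine (Finset.sum_le_card_nsmul _ _ 1 fun j hj => ?_).trans ?_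
    · rw [Finset.mem_erase] at hj
      exact (hL j hj.2 hj.1).1
    · rw [Finset.card_erase_of_mem hi]
      simp only [smul_eq_mul, mul_one]
      omega)
  rw [Finset.sum_eq_single i] at h3
  · refine (mul_eq_zero.1 h3).resolve_right ?_
    rw [map_prod]
    refine Finset.prod_ne_zero_iff.2 ?_
    intro j hj
    rw [Finset.mem_erase] at hj
    exact (hL j hj.2 hj.1).2.2
  · intro j hj hji
    rw [map_prod, Finset.prod_eq_zero (i := j), mul_zero]
    · exact Finset.mem_erase.2 ⟨hji, hj⟩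
    · exact (hL j hj hji).2.1
  · intro h4
    exact absurd hi h4

end

end Pool.Agent.N162.CV
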