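import Pool.Agent.N162.CV.Base

/-!
A cycle in space with a relation of high degree is a combination of the cycles of few curves.
-/

set_option autoImplicit false

open MvPolynomial

namespace Pool.Agent.N162.CV

section

variable {Ω : Type} [Field Ω]

theorem td_prod {ι : Type} (J : Finset ι) (G : ι → MvPolynomial (Fin 2) Ω)
    (hG : ∀ i ∈ J, G i ≠ 0) : (∏ i ∈ J, G i).totalDegree = ∑ i ∈ J, (G i).totalDegree := by
  classical
  induction J using Finset.induction_on with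
  | empty => simp
  | insert a J ha ih =>
    rw [Finset.prod_insert ha, Finset.sum_insert ha, totalDegree_mul_of_isDomain
      (hG a (Finset.mem_insert_self _ _))
      (Finset.prod_ne_zero_iff.2 fun i hi => hG i (Finset.mem_insert_of_mem hi)),
      ih fun i hi => hG i (Finset.mem_insert_of_mem hi)]

theorem td_dvd {A B : MvPolynomial (Fin 2) Ω} (h : A ∣ B) (hB : B ≠ 0) :
    A.totalDegree ≤ B.totalDegree := by
  obtain ⟨Q, rfl⟩ := h
  rw [totalDegree_mul_of_isDomain (left_ne_zero_of_mul hB) (right_ne_zero_of_mul hB)]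
  omega

theorem relPrime_of_not_dvd {G B : MvPolynomial (Fin 2) Ω} (hG : Irreducible G) (h : ¬ G ∣ B) :
    IsRelPrime G B := by
  intro D hD hD'
  by_contra hu
  apply h
  rcases hG.dvd_iff.1 hD with h1 | h1
  · exact absurd h1 hu
  · exact h1.dvd.trans hD'

/-- A cycle `c` with the cycles `cyc i` of the curves. -/
structure Conf (r : ℕ) (κ : (Fin 4 → Ω) → Ω) (m N d : ℕ)
    (c : (Fin 4 → Ω) →₀ ℤ) (g : Fin r → ℕ) (on : Fin r → (Fin 4 → Ω) → Prop)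
    (cyc : Fin r → (Fin 4 → Ω) →₀ ℤ) : Prop where
  hd : m + 4 = d
  hN : 1 ≤ N
  hm : 2 * N ^ 2 + 6 * N ≤ m
  hc0 : ∀ p, c p ≠ 0 → p 0 = 1 ∧ κ p ≠ 0
  hcr : Rel m κ c
  hcard : c.support.card ≤ N * d
  cover : ∀ p, c p ≠ 0 → ∃ i, on i p
  hcy : ∀ i p, c p ≠ 0 → on i p → cyc i p ≠ 0
  cyc0 : ∀ i p, cyc i p ≠ 0 → p 0 = 1 ∧ κ p ≠ 0 ∧ on i p
  cycnn : ∀ i p, 0 ≤ cyc i p
  cycdeg : ∀ i (Q : Finset (Fin 4 → Ω)), ∑ p ∈ Q, cyc i p ≤ (g i * d : ℕ)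
  cycr : ∀ i, Rel m κ (cyc i)
  hsum : ∑ i, g i ≤ N ^ 2
  proj : ∀ Γ : Finset (Fin 4 → Ω), (∀ p ∈ Γ, p 0 = 1) → ∃ bad : Finset Ω, ∀ t : Ω, t ∉ bad →
    ∃ G : Fin r → MvPolynomial (Fin 2) Ω, (∀ i, Irreducible (G i) ∧ (G i).totalDegree = g i) ∧
      (∀ i j, i ≠ j → ¬ Associated (G i) (G j)) ∧
      ∀ i, ∀ p ∈ Γ, (eval (pr t p) (G i) = 0 ↔ on i p)

open Classical in
/-- all points -/
noncomputable def Gam {r : ℕ} (c : (Fin 4 → Ω) →₀ ℤ) (cyc : Fin r → (Fin 4 → Ω) →₀ ℤ) :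
    Finset (Fin 4 → Ω) :=
  c.support ∪ Finset.univ.biUnion fun i => (cyc i).support

theorem mem_Gam {r : ℕ} {c : (Fin 4 → Ω) →₀ ℤ} {cyc : Fin r → (Fin 4 → Ω) →₀ ℤ}
    {p : Fin 4 → Ω} : p ∈ Gam c cyc ↔ c p ≠ 0 ∨ ∃ i, cyc i p ≠ 0 := by
  classical
  unfold Gam
  simp

/-- The projection to the plane and the relevant curves. -/
structure Pos (r : ℕ) (κ : (Fin 4 → Ω) → Ω) (m N d : ℕ)
    (c : (Fin 4 → Ω) →₀ ℤ) (g : Fin r → ℕ) (on : Fin r → (Fin 4 → Ω) → Prop)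
    (cyc : Fin r → (Fin 4 → Ω) →₀ ℤ) (t : Ω) (J : Finset (Fin r))
    (G : Fin r → MvPolynomial (Fin 2) Ω) : Prop where
  irr : ∀ i, Irreducible (G i)
  deg : ∀ i, (G i).totalDegree = g i
  assoc : ∀ i j, i ≠ j → ¬ Associated (G i) (G j)
  iff : ∀ i, ∀ p ∈ Gam c cyc, (eval (pr t p) (G i) = 0 ↔ on i p)
  inj : Set.InjOn (pr t) (Gam c cyc)
  cov : ∀ p, c p ≠ 0 → ∃ i ∈ J, on i p
  min : ∀ j ∈ J, ∃ p, c p ≠ 0 ∧ ∀ i ∈ J, i ≠ j → ¬ on i p

variable {r : ℕ} {κ : (Fin 4 → Ω) → Ω} {m N d : ℕ} {c : (Fin 4 → Ω) →₀ ℤ} {g : Fin r → ℕ}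
  {on : Fin r → (Fin 4 → Ω) → Prop} {cyc : Fin r → (Fin 4 → Ω) →₀ ℤ} {t : Ω}
  {J : Finset (Fin r)} {G : Fin r → MvPolynomial (Fin 2) Ω}

open Classical in
/-- the points of `w` on the curve `j` only -/
noncomputable def only (J : Finset (Fin r)) (on : Fin r → (Fin 4 → Ω) → Prop)
    (w : (Fin 4 → Ω) →₀ ℤ) (j : Fin r) : Finset (Fin 4 → Ω) :=
  w.support.filter fun p => ∀ i ∈ J, i ≠ j → ¬ on i p

theorem mem_only {w : (Fin 4 → Ω) →₀ ℤ} {j : Fin r} {p : Fin 4 → Ω} :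
    p ∈ only J on w j ↔ w p ≠ 0 ∧ ∀ i ∈ J, i ≠ j → ¬ on i p := by
  classical
  unfold only
  rw [Finset.mem_filter, Finsupp.mem_support_iff]

theorem Pos.eval_prod (hp : Pos r κ m N d c g on cyc t J G) {j : Fin r} {p : Fin 4 → Ω}
    (hpG : p ∈ Gam c cyc) :
    eval (pr t p) (∏ i ∈ J.erase j, G i) = 0 ↔ ∃ i ∈ J, i ≠ j ∧ on i p := by
  rw [map_prod, Finset.prod_eq_zero_iff]
  constructor
  · rintro ⟨i, hi, h⟩
    rw [Finset.mem_erase] at hi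
    exact ⟨i, hi.2, hi.1, (hp.iff i p hpG).1 h⟩
  · rintro ⟨i, hi, hij, h⟩
    exact ⟨i, Finset.mem_erase.2 ⟨hij, hi⟩, (hp.iff i p hpG).2 h⟩

theorem Pos.sub (hp : Pos r κ m N d c g on cyc t J G) (j : Fin r) (hj : j ∈ J) :
    (∏ i ∈ J.erase j, G i).totalDegree + g j = ∑ i ∈ J, g i := by
  rw [td_prod _ _ fun i _ => (hp.irr i).ne_zero, ← Finset.add_sum_erase J g hj, add_comm]
  congr 1
  exact Finset.sum_congr rfl fun i _ => hp.deg i

/-- the relation on one curve -/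
theorem Pos.rel_only (hp : Pos r κ m N d c g on cyc t J G) {w : (Fin 4 → Ω) →₀ ℤ}
    (hw : Rel m κ w) (hw0 : ∀ p, w p ≠ 0 → p ∈ Gam c cyc ∧ p 0 = 1 ∧ κ p ≠ 0)
    {k : ℕ} {j : Fin r} (hk : (∏ i ∈ J.erase j, G i).totalDegree + k ≤ m) :
    PRel k (only J on w j) (pr t)
      (fun p => (w p : Ω) * κ p * eval (pr t p) (∏ i ∈ J.erase j, G i)) := by
  refine mulH (toPlane hw (fun p h => (hw0 p h).2.1) t) _ hk (fun p h => ?_) fun p h h' => ?_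
  · rw [mem_only] at h
    exact Finsupp.mem_support_iff.2 h.1
  · rw [Finsupp.mem_support_iff] at h
    rw [mem_only] at h'
    push Not at h'
    obtain ⟨i, hi, hij, h1⟩ := h' h
    exact (hp.eval_prod (hw0 p h).1).2 ⟨i, hi, hij, h1⟩

theorem Pos.weight (hp : Pos r κ m N d c g on cyc t J G) [CharZero Ω] {w : (Fin 4 → Ω) →₀ ℤ}
    (hw0 : ∀ p, w p ≠ 0 → p ∈ Gam c cyc ∧ p 0 = 1 ∧ κ p ≠ 0) {j : Fin r} {p : Fin 4 → Ω}
    (h : p ∈ only J on w j) : (w p : Ω) * κ p * eval (pr t p) (∏ i ∈ J.erase j, G i) ≠ 0 := by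
  rw [mem_only] at h
  refine mul_ne_zero (mul_ne_zero (Int.cast_ne_zero.2 h.1) (hw0 p h.1).2.2) fun h1 => ?_
  obtain ⟨i, hi, hij, h2⟩ := (hp.eval_prod (hw0 p h.1).1).1 h1
  exact h.2 i hi hij h2

theorem Pos.inj_only (hp : Pos r κ m N d c g on cyc t J G) {w : (Fin 4 → Ω) →₀ ℤ}
    (hw0 : ∀ p, w p ≠ 0 → p ∈ Gam c cyc ∧ p 0 = 1 ∧ κ p ≠ 0) {j : Fin r} :
    Set.InjOn (pr t) (only J on w j) := by
  intro p h q h'
  rw [Finset.mem_coe, mem_only] at h h'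
  exact hp.inj (hw0 p h.1).1 (hw0 q h'.1).1

theorem Pos.c0 (hC : Conf r κ m N d c g on cyc) :
    ∀ p, c p ≠ 0 → p ∈ Gam c cyc ∧ p 0 = 1 ∧ κ p ≠ 0 := fun p h =>
  ⟨mem_Gam.2 (Or.inl h), (hC.hc0 p h).1, (hC.hc0 p h).2⟩

theorem Pos.cyc0 (hC : Conf r κ m N d c g on cyc) (i : Fin r) :
    ∀ p, cyc i p ≠ 0 → p ∈ Gam c cyc ∧ p 0 = 1 ∧ κ p ≠ 0 := fun p h =>
  ⟨mem_Gam.2 (Or.inr ⟨i, h⟩), (hC.cyc0 i p h).1, (hC.cyc0 i p h).2.1⟩

/-- **Step I.** -/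
theorem stepI [IsAlgClosed Ω] [CharZero Ω] (hC : Conf r κ m N d c g on cyc) :
    ∃ (t : ℕ) (J : Finset (Fin r)) (G : Fin r → MvPolynomial (Fin 2) Ω), 1 ≤ t ∧
      Pos r κ m N d c g on cyc (t : Ω) J G := by
  classical
  have hG0 : ∀ p ∈ Gam c cyc, p 0 = 1 := by
    intro p hp
    rcases mem_Gam.1 hp with h | ⟨i, h⟩
    · exact (hC.hc0 p h).1
    · exact (hC.cyc0 i p h).1
  obtain ⟨bad, hbad⟩ := hC.proj (Gam c cyc) hG0
  obtain ⟨bad2, hbad2⟩ : ∃ bad2 : Finset Ω, bad2 = ((Gam c cyc) ×ˢ (Gam c cyc)).image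
      fun q => (q.2 2 - q.1 2) / (q.1 3 - q.2 3) := ⟨_, rfl⟩
  obtain ⟨t, ht⟩ : ∃ t : ℕ, ((t + 1 : ℕ) : Ω) ∉ bad ∪ bad2 := by
    by_contra hcon
    push Not at hcon
    have h1 : Set.Infinite (Set.range fun t : ℕ => ((t + 1 : ℕ) : Ω)) := by
      refine Set.infinite_range_of_injective fun a b hab => ?_
      have h2 : ((a + 1 : ℕ) : Ω) = ((b + 1 : ℕ) : Ω) := hab
      have h3 := Nat.cast_injective h2
      omega
    refine h1 ((bad ∪ bad2).finite_toSet.subset ?_)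
    rintro _ ⟨t, rfl⟩
    exact hcon t
  rw [Finset.notMem_union] at ht
  obtain ⟨G, hG1, hG2, hG3⟩ := hbad _ ht.1
  -- minimal covering
  obtain ⟨J, hJ, hJmin⟩ : ∃ J : Finset (Fin r), (∀ p, c p ≠ 0 → ∃ i ∈ J, on i p) ∧
      ∀ J' : Finset (Fin r), (∀ p, c p ≠ 0 → ∃ i ∈ J', on i p) → J.card ≤ J'.card := by
    obtain ⟨J, hJ, h⟩ := Finset.exists_min_image ((Finset.univ : Finset (Finset (Fin r))).filter
      fun J => ∀ p, c p ≠ 0 → ∃ i ∈ J, on i p) Finset.card ⟨Finset.univ, by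
        rw [Finset.mem_filter]
        refine ⟨Finset.mem_univ _, fun p hp => ?_⟩
        obtain ⟨i, hi⟩ := hC.cover p hp
        exact ⟨i, Finset.mem_univ _, hi⟩⟩
    rw [Finset.mem_filter] at hJ
    exact ⟨J, hJ.2, fun J' hJ' => h J' (Finset.mem_filter.2 ⟨Finset.mem_univ _, hJ'⟩)⟩
  refine ⟨t + 1, J, G, by omega, fun i => (hG1 i).1, fun i => (hG1 i).2, hG2, hG3, ?_, hJ, ?_⟩
  · intro p hp q hq hpq
    by_contra hne
    apply ht.2
    rw [hbad2]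
    refine Finset.mem_image.2 ⟨(p, q), Finset.mem_product.2 ⟨hp, hq⟩, ?_⟩
    have h1 : p 1 = q 1 := congrFun hpq 0
    have h2 : p 2 + ((t + 1 : ℕ) : Ω) * p 3 = q 2 + ((t + 1 : ℕ) : Ω) * q 3 := congrFun hpq 1
    have h3 : p 3 - q 3 ≠ 0 := by
      intro h3
      apply hne
      have h4 : p 3 = q 3 := sub_eq_zero.1 h3
      funext i
      fin_cases i
      · exact (hG0 p hp).trans (hG0 q hq).symm
      · exact h1
      · rw [h4] at h2
        exact add_right_cancel h2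
      · exact h4
    change (q 2 - p 2) / (p 3 - q 3) = _
    rw [div_eq_iff h3]
    linear_combination -h2
  · intro j hj
    by_contra hcon
    push Not at hcon
    have h1 := hJmin (J.erase j) (by
      intro p hp
      obtain ⟨i, hi, hij, h⟩ := hcon p hp
      exact ⟨i, Finset.mem_erase.2 ⟨hij, hi⟩, h⟩)
    rw [Finset.card_erase_of_mem hj] at h1
    have h2 := Finset.card_pos.2 ⟨j, hj⟩
    omega

/-- the total degree of the relevant curves -/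
theorem deg_le (hA1 : StA1) (hA2 : StA2) [IsAlgClosed Ω] [CharZero Ω]
    (hC : Conf r κ m N d c g on cyc) (hp : Pos r κ m N d c g on cyc t J G) :
    ∑ i ∈ J, g i ≤ N := by
  classical
  have hm := hC.hm
  have hN := hC.hN
  have hs : ∑ i ∈ J, g i ≤ N ^ 2 :=
    (Finset.sum_le_sum_of_subset (Finset.subset_univ J)).trans hC.hsum
  obtain ⟨B, hB0, hBd, hB⟩ := hA2 Ω (Fin 4 → Ω) c.support (pr t) (fun p => (c p : Ω) * κ p) m N
    hN hm (by rw [hC.hd]; exact hC.hcard)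
    (fun p h q h' => hp.inj (Pos.c0 hC p (Finsupp.mem_support_iff.1 h)).1
      (Pos.c0 hC q (Finsupp.mem_support_iff.1 h')).1)
    (fun p h => mul_ne_zero (Int.cast_ne_zero.2 (Finsupp.mem_support_iff.1 h))
      (hC.hc0 p (Finsupp.mem_support_iff.1 h)).2)
    (toPlane hC.hcr (fun p h => (hC.hc0 p h).1) t)
  have hdvd : ∀ j ∈ J, G j ∣ B := by
    intro j hj
    by_contra hnd
    obtain ⟨p0, hp0, hp1⟩ := hp.min j hj
    have hsub := hp.sub j hj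
    have hhm : (∏ i ∈ J.erase j, G i).totalDegree + (m - (∏ i ∈ J.erase j, G i).totalDegree) ≤ m := by
      have h0 : (∏ i ∈ J.erase j, G i).totalDegree ≤ m := by nlinarith
      omega
    have h1 := hA1 Ω (Fin 4 → Ω) (only J on c j) (pr t) _
      (m - (∏ i ∈ J.erase j, G i).totalDegree) (G j) B ⟨p0, mem_only.2 ⟨hp0, hp1⟩⟩
      (hp.inj_only (Pos.c0 hC)) (fun p h => hp.weight (Pos.c0 hC) h)
      (hp.rel_only hC.hcr (Pos.c0 hC) hhm)
      (hp.irr j).ne_zero hB0 (relPrime_of_not_dvd (hp.irr j) hnd) (fun p h => by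
        rw [mem_only] at h
        refine ⟨?_, hB p (Finsupp.mem_support_iff.2 h.1)⟩
        obtain ⟨i, hi, hi'⟩ := hp.cov p h.1
        have hij : i = j := by
          by_contra hij
          exact h.2 i hi hij hi'
        rw [← hij]
        exact (hp.iff i p (Pos.c0 hC p h.1).1).2 hi')
    rw [hp.deg] at h1
    have h2 : (∏ i ∈ J.erase j, G i).totalDegree ≤ N ^ 2 := by omega
    have h3 : m + 3 ≤ N ^ 2 + N := by omega
    nlinarith
  have h1 : (∏ j ∈ J, G j) ∣ B := by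
    refine Finset.prod_dvd_of_isRelPrime ?_ hdvd
    intro i _ j _ hij
    refine relPrime_of_not_dvd (hp.irr i) fun h => ?_
    exact hp.assoc i j hij ((hp.irr i).associated_of_dvd (hp.irr j) h)
  have h2 := td_dvd h1 hB0
  rw [td_prod _ _ fun i _ => (hp.irr i).ne_zero] at h2
  have h3 : ∑ i ∈ J, (G i).totalDegree = ∑ i ∈ J, g i := Finset.sum_congr rfl fun i _ => hp.deg i
  omega

end

end Pool.Agent.N162.CV
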