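import Pool.Agent.N162.CV.Comb

/-!
The cycle is the combination of the cycles of the curves, once the multiplicities agree at most
points.
-/

set_option autoImplicit false

open MvPolynomial

namespace Pool.Agent.N162.CV

section

variable {Ω : Type} [Field Ω]

theorem Rel.sub {m : ℕ} {κ : (Fin 4 → Ω) → Ω} {c c' : (Fin 4 → Ω) →₀ ℤ} (h : Rel m κ c)
    (h' : Rel m κ c') : Rel m κ (c - c') := by
  intro P hP
  rw [map_sub, h P hP, h' P hP, sub_zero]

theorem Rel.sum {m : ℕ} {κ : (Fin 4 → Ω) → Ω} {ι : Type} (J : Finset ι)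
    (c : ι → (Fin 4 → Ω) →₀ ℤ) (h : ∀ i, Rel m κ (c i)) : Rel m κ (∑ i ∈ J, c i) := by
  intro P hP
  rw [map_sum]
  exact Finset.sum_eq_zero fun i _ => h i P hP

theorem Rel.zsmul {m : ℕ} {κ : (Fin 4 → Ω) → Ω} {c : (Fin 4 → Ω) →₀ ℤ} (h : Rel m κ c)
    (a : ℤ) : Rel m κ (a • c) := by
  intro P hP
  rw [map_zsmul, h P hP, smul_zero]

variable {r : ℕ} {κ : (Fin 4 → Ω) → Ω} {m N d : ℕ} {c : (Fin 4 → Ω) →₀ ℤ} {g : Fin r → ℕ}
  {on : Fin r → (Fin 4 → Ω) → Prop} {cyc : Fin r → (Fin 4 → Ω) →₀ ℤ} {t : Ω}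
  {J : Finset (Fin r)} {G : Fin r → MvPolynomial (Fin 2) Ω}

/-- number of points of a cycle on one curve -/
theorem Pos.card_only (hA3 : StA3) [IsAlgClosed Ω] [CharZero Ω]
    (hC : Conf r κ m N d c g on cyc) (hp : Pos r κ m N d c g on cyc t J G)
    (he : ∑ i ∈ J, g i ≤ N) {w : (Fin 4 → Ω) →₀ ℤ} (hw : Rel m κ w)
    (hw0 : ∀ p, w p ≠ 0 → p ∈ Gam c cyc ∧ p 0 = 1 ∧ κ p ≠ 0) {j : Fin r} (hj : j ∈ J)
    (hon : ∀ p ∈ only J on w j, on j p) (hne : (only J on w j).Nonempty) :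
    g j * d ≤ (only J on w j).card + g j * (1 + ∑ i ∈ J, g i) := by
  have hsub := hp.sub j hj
  have hm := hC.hm
  have hN := hC.hN
  have hd := hC.hd
  obtain ⟨h, hh⟩ : ∃ h, h = (∏ i ∈ J.erase j, G i).totalDegree := ⟨_, rfl⟩
  rw [← hh] at hsub
  have hhm : h ≤ m := by nlinarith
  have h1 := hA3 Ω (Fin 4 → Ω) (only J on w j) (pr t) _ (m - h) (G j) hne
    (hp.inj_only hw0) (fun p h => hp.weight hw0 h)
    (hp.rel_only hw hw0 (by rw [← hh]; omega)) (hp.irr j) (fun p hpp => by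
      have h2 := hon p hpp
      rw [mem_only] at hpp
      exact (hp.iff j p (hw0 p hpp.1).1).2 h2) (by rw [hp.deg]; nlinarith [Nat.sub_add_cancel hhm])
  rw [hp.deg] at h1
  obtain ⟨k, hk⟩ : ∃ k, m = h + k := ⟨m - h, by omega⟩
  have h2 : m - h = k := by omega
  rw [h2] at h1
  have h3 : d = h + k + 4 := by omega
  have h4 : ∑ i ∈ J, g i = h + g j := by omega
  rw [h3, h4]
  nlinarith

/-- **Step III.** -/
theorem stepIII (hA3 : StA3) (hBEZ : StBEZ) [IsAlgClosed Ω] [CharZero Ω]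
    (hC : Conf r κ m N d c g on cyc) (hp : Pos r κ m N d c g on cyc t J G)
    (he : ∑ i ∈ J, g i ≤ N) (a : Fin r → ℤ)
    (hII : ∀ j ∈ J, ∀ B : Finset (Fin 4 → Ω), (∀ p ∈ B, p ∈ Gam c cyc ∧ on j p ∧
      (∀ i ∈ J, i ≠ j → ¬ on i p) ∧ c p ≠ a j * cyc j p) →
      B.card + g j * (1 + ∑ i ∈ J, g i) < g j * d) :
    c = ∑ j ∈ J, a j • cyc j := by
  classical
  obtain ⟨w, hw⟩ : ∃ w, w = c - ∑ j ∈ J, a j • cyc j := ⟨_, rfl⟩
  have hwr : Rel m κ w := by
    rw [hw]
    exact hC.hcr.sub (Rel.sum J _ fun i => (hC.cycr i).zsmul _)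
  have hwp : ∀ p, w p = c p - ∑ j ∈ J, a j * cyc j p := by
    intro p
    rw [hw, Finsupp.sub_apply, Finset.sum_apply']
    simp [Finsupp.smul_apply]
  have hcase : ∀ p, w p ≠ 0 → c p ≠ 0 ∨ ∃ j ∈ J, cyc j p ≠ 0 := by
    intro p h
    by_contra hcon
    push Not at hcon
    apply h
    rw [hwp, hcon.1, Finset.sum_eq_zero fun j hj => by rw [hcon.2 j hj, mul_zero], sub_zero]
  have hw0 : ∀ p, w p ≠ 0 → p ∈ Gam c cyc ∧ p 0 = 1 ∧ κ p ≠ 0 := by
    intro p h
    rcases hcase p h with h1 | ⟨j, -, h1⟩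
    · exact Pos.c0 hC p h1
    · exact Pos.cyc0 hC j p h1
  have hon : ∀ p, w p ≠ 0 → ∃ j ∈ J, on j p := by
    intro p h
    rcases hcase p h with h1 | ⟨j, hj, h1⟩
    · exact hp.cov p h1
    · exact ⟨j, hj, (hC.cyc0 j p h1).2.2⟩
  have hempty : ∀ j ∈ J, only J on w j = ∅ := by
    intro j hj
    by_contra hne
    have honj : ∀ p ∈ only J on w j, on j p := by
      intro p h
      rw [mem_only] at h
      obtain ⟨i, hi, hi'⟩ := hon p h.1
      have hij : i = j := by
        by_contra hij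
        exact h.2 i hi hij hi'
      rwa [← hij]
    have h1 := hp.card_only hA3 hC he hwr hw0 hj honj (Finset.nonempty_iff_ne_empty.2 hne)
    have h2 := hII j hj (only J on w j) fun p h => by
      have h3 := honj p h
      rw [mem_only] at h
      refine ⟨(hw0 p h.1).1, h3, h.2, fun h4 => ?_⟩
      apply h.1
      rw [hwp, h4, Finset.sum_eq_single_of_mem j hj, sub_self]
      intro i hi hij
      have h5 : cyc i p = 0 := by
        by_contra h5
        exact h.2 i hi hij (hC.cyc0 i p h5).2.2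
      rw [h5, mul_zero]
    omega
  -- the remaining points are on two curves
  have hcard : w.support.card ≤ ∑ q ∈ J.offDiag, g q.1 * g q.2 := by
    have h1 : w.support ⊆ J.offDiag.biUnion fun q => w.support.filter fun p =>
        on q.1 p ∧ on q.2 p := by
      intro p hpw
      rw [Finsupp.mem_support_iff] at hpw
      obtain ⟨j, hj, hj'⟩ := hon p hpw
      have h2 : p ∉ only J on w j := by
        rw [hempty j hj]
        exact Finset.notMem_empty _
      rw [mem_only] at h2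
      push Not at h2
      obtain ⟨i, hi, hij, hi'⟩ := h2 hpw
      rw [Finset.mem_biUnion]
      exact ⟨(j, i), Finset.mem_offDiag.2 ⟨hj, hi, hij.symm⟩, Finset.mem_filter.2
        ⟨Finsupp.mem_support_iff.2 hpw, hj', hi'⟩⟩
    refine (Finset.card_le_card h1).trans (Finset.card_biUnion_le.trans ?_)
    refine Finset.sum_le_sum fun q hq => ?_
    rw [Finset.mem_offDiag] at hq
    have h2 : (w.support.filter fun p => on q.1 p ∧ on q.2 p).card =
        ((w.support.filter fun p => on q.1 p ∧ on q.2 p).image (pr t)).card := by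
      rw [Finset.card_image_of_injOn]
      intro p h p' h'
      rw [Finset.mem_coe, Finset.mem_filter, Finsupp.mem_support_iff] at h h'
      exact hp.inj (hw0 p h.1).1 (hw0 p' h'.1).1
    rw [h2]
    have h3 := hBEZ Ω (G q.1) (G q.2) (hp.irr _).ne_zero (hp.irr _).ne_zero
      (relPrime_of_not_dvd (hp.irr q.1) fun h => hp.assoc q.1 q.2 hq.2.2
        ((hp.irr q.1).associated_of_dvd (hp.irr q.2) h))
      ((w.support.filter fun p => on q.1 p ∧ on q.2 p).image (pr t)) (by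
        intro u hu
        rw [Finset.mem_image] at hu
        obtain ⟨p, h, rfl⟩ := hu
        rw [Finset.mem_filter, Finsupp.mem_support_iff] at h
        exact ⟨(hp.iff _ p (hw0 p h.1).1).2 h.2.1, (hp.iff _ p (hw0 p h.1).1).2 h.2.2⟩)
    rwa [hp.deg, hp.deg] at h3
  have hcard2 : ∑ q ∈ J.offDiag, g q.1 * g q.2 ≤ (∑ i ∈ J, g i) ^ 2 := by
    rw [sq, Finset.sum_mul_sum, ← Finset.sum_product']
    exact Finset.sum_le_sum_of_subset (by
      intro q hq
      rw [Finset.mem_offDiag] at hq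
      exact Finset.mem_product.2 ⟨hq.1, hq.2.1⟩)
  have hsmall : w.support.card ≤ m + 1 := by
    have h1 := hC.hm
    have h2 := Nat.pow_le_pow_left he 2
    nlinarith
  have hzero := few (toPlane hwr (fun p h => (hw0 p h).2.1) t) (by
    intro p h p' h'
    exact hp.inj (hw0 p (Finsupp.mem_support_iff.1 h)).1 (hw0 p' (Finsupp.mem_support_iff.1 h')).1)
    hsmall
  have hw1 : w = 0 := by
    ext p
    by_contra hne
    have h1 := hzero p (Finsupp.mem_support_iff.2 hne)
    rcases mul_eq_zero.1 h1 with h2 | h2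
    · exact hne (Int.cast_eq_zero.1 h2)
    · exact (hw0 p hne).2.2 h2
  rw [hw] at hw1
  exact sub_eq_zero.1 hw1

/-- **Step II**, few multiplicities. -/
theorem stepIIa (hA3 : StA3) [IsAlgClosed Ω] [CharZero Ω]
    (hC : Conf r κ m N d c g on cyc) (hp : Pos r κ m N d c g on cyc t J G)
    (he : ∑ i ∈ J, g i ≤ N) {v : ℕ} (hv : (c.support.image c).card ≤ v)
    (hvN : (v + 1) * (N + 1) < d) (j : Fin r) (hj : j ∈ J) (hgj : 1 ≤ g j) :
    ∃ a : ℤ, ∀ B : Finset (Fin 4 → Ω), (∀ p ∈ B, p ∈ Gam c cyc ∧ on j p ∧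
      (∀ i ∈ J, i ≠ j → ¬ on i p) ∧ c p ≠ a * cyc j p) →
      B.card + g j * (1 + ∑ i ∈ J, g i) < g j * d := by
  classical
  obtain ⟨p0, hp0, hp1⟩ := hp.min j hj
  have honj : ∀ p ∈ only J on c j, on j p := by
    intro p h
    rw [mem_only] at h
    obtain ⟨i, hi, hi'⟩ := hp.cov p h.1
    have hij : i = j := by
      by_contra hij
      exact h.2 i hi hij hi'
    rwa [← hij]
  have h1 := hp.card_only hA3 hC he hC.hcr (Pos.c0 hC) hj honj ⟨p0, mem_only.2 ⟨hp0, hp1⟩⟩
  obtain ⟨e, hedef⟩ : ∃ e, e = ∑ i ∈ J, g i := ⟨_, rfl⟩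
  rw [← hedef] at h1 he ⊢
  -- the most frequent value
  obtain ⟨a, ha, ha2⟩ : ∃ a ∈ c.support.image c,
      g j * (1 + e) < ((only J on c j).filter fun p => c p = a).card := by
    refine Finset.exists_lt_card_fiber_of_mul_lt_card_of_maps_to (fun p h => ?_) ?_
    · rw [mem_only] at h
      exact Finset.mem_image_of_mem _ (Finsupp.mem_support_iff.2 h.1)
    · have h2 : (c.support.image c).card * (g j * (1 + e)) ≤ v * (g j * (1 + e)) :=
        Nat.mul_le_mul_right _ hv
      have h3 : (v + 1) * (1 + e) < d := by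
        refine lt_of_le_of_lt ?_ hvN
        exact Nat.mul_le_mul_left _ (by omega)
      have h4 : g j * ((v + 1) * (1 + e)) < g j * d := Nat.mul_lt_mul_of_pos_left h3 (by omega)
      nlinarith
  refine ⟨a, fun B hB => ?_⟩
  -- sum of the multiplicities
  obtain ⟨Y, hY⟩ : ∃ Y, Y = (only J on c j).filter fun p => c p = a := ⟨_, rfl⟩
  rw [← hY] at ha2
  have ha0 : a ≠ 0 := by
    obtain ⟨p, hp2, rfl⟩ := Finset.mem_image.1 ha
    exact Finsupp.mem_support_iff.1 hp2
  have h5 := hC.cycdeg j (B ∪ Y)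
  have h6 : ∀ p ∈ B ∪ Y, (1 : ℤ) + (if p ∈ B ∧ p ∈ Y then 1 else 0) ≤ cyc j p := by
    intro p hpp
    have hnn := hC.cycnn j p
    have hpos : cyc j p ≠ 0 := by
      rcases Finset.mem_union.1 hpp with h | h
      · obtain ⟨h7, h8, h9, h10⟩ := hB p h
        intro h11
        rw [h11, mul_zero] at h10
        exact hC.hcy j p h10 h8 h11
      · rw [hY, Finset.mem_filter] at h
        exact hC.hcy j p (mem_only.1 h.1).1 (honj p h.1)
    split_ifs with h
    · obtain ⟨h7, h8, h9, h10⟩ := hB p h.1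
      have h11 := h.2
      rw [hY, Finset.mem_filter] at h11
      have h12 : cyc j p ≠ 1 := by
        intro h12
        rw [h12, mul_one] at h10
        exact h10 h11.2
      omega
    · omega
  have h7 := Finset.sum_le_sum h6
  rw [Finset.sum_add_distrib] at h7
  have h8 : ∑ p ∈ B ∪ Y, (if p ∈ B ∧ p ∈ Y then (1 : ℤ) else 0) = (B ∩ Y).card := by
    rw [← Finset.sum_filter, Finset.sum_const, nsmul_eq_mul, mul_one]
    congr 2
    ext p
    simp only [Finset.mem_filter, Finset.mem_union, Finset.mem_inter]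
    tauto
  rw [h8, Finset.sum_const, nsmul_eq_mul, mul_one] at h7
  have h9 := Finset.card_union_add_card_inter B Y
  have h10 : ((B ∪ Y).card : ℤ) + (B ∩ Y).card = B.card + Y.card := by exact_mod_cast h9
  have h11 : (B.card + Y.card : ℤ) ≤ (g j * d : ℕ) := by linarith
  have h12 : B.card + Y.card ≤ g j * d := by exact_mod_cast h11
  omega

end

end Pool.Agent.N162.CV
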