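import Pool.Agent.N162.CV.Comb2
import Pool.Agent.N162.CV.AlgPt

/-!
The multiplicities are constant along the curves if the surface is very general.
-/

set_option autoImplicit false

open MvPolynomial

namespace Pool.Agent.N162.CV

section

variable {Ω : Type} [Field Ω]

variable {r : ℕ} {κ : (Fin 4 → Ω) → Ω} {m N d : ℕ} {c : (Fin 4 → Ω) →₀ ℤ} {g : Fin r → ℕ}
  {on : Fin r → (Fin 4 → Ω) → Prop} {cyc : Fin r → (Fin 4 → Ω) →₀ ℤ} {t : ℕ}
  {J : Finset (Fin r)} {G : Fin r → MvPolynomial (Fin 2) Ω}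

theorem card_le_of_ge_one {S : Finset (Fin 4 → Ω)} {f : (Fin 4 → Ω) → ℤ}
    (h : ∀ p ∈ S, 1 ≤ f p) {D : ℕ} (hD : ∑ p ∈ S, f p ≤ D) : S.card ≤ D := by
  have h1 : ∑ p ∈ S, (1 : ℤ) ≤ ∑ p ∈ S, f p := Finset.sum_le_sum h
  rw [Finset.sum_const, nsmul_eq_mul, mul_one] at h1
  exact_mod_cast h1.trans hD

/-- **Step II**, very general surfaces. -/
theorem stepIIb (hA3 : StA3) (hRT : StRT) (hBEZ : StBEZ) (hALG : StALG) [IsAlgClosed Ω]
    [CharZero Ω] (hC : Conf r κ m N d c g on cyc) (hp : Pos r κ m N d c g on cyc (t : Ω) J G)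
    (ht : 1 ≤ t) (he : ∑ i ∈ J, g i ≤ N) (hd5 : 5 * (N + 1) ^ 2 < d)
    {A : MvPolynomial (Fin 2) Ω} (hAM : MonicY A) (hAd : A.totalDegree ≤ N)
    (hA : ∀ p ∈ Gam c cyc, eval ![p 1, p 2] A = 0)
    (hgen : ∀ (S : Finset Ω) (Q : Finset (Fin 4 → Ω)), (∀ q ∈ Q, q ∈ Gam c cyc ∧
      ∀ j, IsAlgebraic (IntermediateField.adjoin ℚ (S : Set Ω)) (q j)) → Q.card ≤ d + 1 →
      Q.card ≤ S.card) (j : Fin r) (hj : j ∈ J) (hgj : 1 ≤ g j) :
    ∃ a : ℤ, ∀ B : Finset (Fin 4 → Ω), (∀ p ∈ B, p ∈ Gam c cyc ∧ on j p ∧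
      (∀ i ∈ J, i ≠ j → ¬ on i p) ∧ c p ≠ a * cyc j p) →
      B.card + g j * (1 + ∑ i ∈ J, g i) < g j * d := by
  classical
  have hm := hC.hm
  have hN := hC.hN
  have hd := hC.hd
  obtain ⟨p0, hp0, hp1⟩ := hp.min j hj
  have honj : ∀ p ∈ only J on c j, on j p := by
    intro p h
    rw [mem_only] at h
    obtain ⟨i, hi, hi'⟩ := hp.cov p h.1
    have hij : i = j := by
      by_contra hij
      exact h.2 i hi hij hi'
    rwa [← hij]
  have h1 := hp.card_only hA3 hC he hC.hcr (Pos.c0 hC) hj honj ⟨p0, mem_only.2 ⟨hp0, hp1⟩⟩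
  obtain ⟨X, hX⟩ : ∃ X, X = only J on (cyc j) j := ⟨_, rfl⟩
  have hXm : ∀ p, p ∈ X ↔ cyc j p ≠ 0 ∧ ∀ i ∈ J, i ≠ j → ¬ on i p := by
    intro p
    rw [hX, mem_only]
  have hsubX : only J on c j ⊆ X := by
    intro p h
    have h2 := honj p h
    rw [mem_only] at h
    exact (hXm p).2 ⟨hC.hcy j p h.1 h2, h.2⟩
  have hcX := Finset.card_le_card hsubX
  have hcyc1 : ∀ p ∈ X, 1 ≤ cyc j p := by
    intro p h
    have h2 := hC.cycnn j p
    have h3 := ((hXm p).1 h).1
    omega
  have hXle : X.card ≤ g j * d := card_le_of_ge_one hcyc1 (hC.cycdeg j X)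
  obtain ⟨H, hH⟩ : ∃ H, H = ∏ i ∈ J.erase j, G i := ⟨_, rfl⟩
  obtain ⟨h, hh⟩ : ∃ h, h = H.totalDegree := ⟨_, rfl⟩
  have hsub : h + g j = ∑ i ∈ J, g i := by
    rw [hh, hH]
    exact hp.sub j hj
  rw [← hsub] at he h1 ⊢
  have hhm : h ≤ m := by nlinarith
  have hHne : ∀ p ∈ X, eval (pr (t : Ω) p) H ≠ 0 := by
    intro p hpX h2
    rw [hH, hp.eval_prod (Pos.cyc0 hC j p ((hXm p).1 hpX).1).1] at h2
    obtain ⟨i, hi, hij, h3⟩ := h2
    exact ((hXm p).1 hpX).2 i hi hij h3
  have hκ : ∀ p ∈ X, κ p ≠ 0 := fun p hpX => (hC.cyc0 j p ((hXm p).1 hpX).1).2.1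
  have hrel1 : PRel (m - h) X (pr (t : Ω))
      (fun p => (cyc j p : Ω) * κ p * eval (pr (t : Ω) p) H) := by
    rw [hX, hH]
    exact hp.rel_only (hC.cycr j) (Pos.cyc0 hC j) (by rw [← hH, ← hh]; omega)
  have hrel2 : PRel (m - h) X (pr (t : Ω))
      (fun p => (c p : Ω) * κ p * eval (pr (t : Ω) p) H) := by
    intro P hP
    have h2 := hp.rel_only (j := j) (k := m - h) hC.hcr (Pos.c0 hC) (by rw [← hH, ← hh]; omega) P hP
    rw [← h2]
    symm
    rw [← hH]
    refine Finset.sum_subset hsubX fun p hpX hpn => ?_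
    have h3 : c p = 0 := by
      by_contra h3
      exact hpn (mem_only.2 ⟨h3, ((hXm p).1 hpX).2⟩)
    change (c p : Ω) * κ p * eval (pr (t : Ω) p) H * eval (pr (t : Ω) p) P = 0
    rw [h3, Int.cast_zero, zero_mul, zero_mul, zero_mul]
  have hinjX : Set.InjOn (pr (t : Ω)) X := by
    rw [hX]
    exact hp.inj_only (Pos.cyc0 hC j)
  have hGX : ∀ p ∈ X, eval (pr (t : Ω) p) (G j) = 0 := by
    intro p hpX
    have h2 := (hXm p).1 hpX
    exact (hp.iff j p (Pos.cyc0 hC j p h2.1).1).2 (hC.cyc0 j p h2.1).2.2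
  obtain ⟨U, V, hU, hV, hGV, hUV⟩ := hRT Ω (Fin 4 → Ω) X (pr (t : Ω)) _ _ (m - h) h d (G j)
    ⟨p0, hsubX (mem_only.2 ⟨hp0, hp1⟩)⟩ hinjX
    (fun p hpX => mul_ne_zero (mul_ne_zero (Int.cast_ne_zero.2 ((hXm p).1 hpX).1) (hκ p hpX))
      (hHne p hpX)) hrel2 hrel1 (hp.irr j) hGX (by omega) (by rw [hp.deg]; exact hXle)
    (by rw [hp.deg]; nlinarith [Nat.sub_add_cancel hhm])
  rw [hp.deg] at hU hV
  have hkey : ∀ p ∈ X, eval (pr (t : Ω) p) U * (cyc j p : Ω) =
      eval (pr (t : Ω) p) V * (c p : Ω) := by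
    intro p hpX
    have h2 := hUV p hpX
    have h3 : κ p * eval (pr (t : Ω) p) H ≠ 0 := mul_ne_zero (hκ p hpX) (hHne p hpX)
    apply mul_right_cancel₀ h3
    linear_combination h2
  have hs : h + 2 * g j ≤ 2 * N := by omega
  by_cases hcase : ∃ a : ℚ, G j ∣ U - C (a : Ω) * V
  · -- constant ratio
    obtain ⟨a, ha⟩ := hcase
    have hval : ∀ p ∈ X, eval (pr (t : Ω) p) V ≠ 0 → (c p : Ω) = (a : Ω) * (cyc j p : Ω) := by
      intro p hpX hVp
      obtain ⟨W, hW⟩ := ha
      have h2 := congrArg (eval (pr (t : Ω) p)) hW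
      rw [map_sub, map_mul, map_mul, eval_C, hGX p hpX, zero_mul] at h2
      apply mul_left_cancel₀ hVp
      rw [← hkey p hpX]
      linear_combination (cyc j p : Ω) * h2
    obtain ⟨Z, hZ⟩ : ∃ Z, Z = X.filter fun p => eval (pr (t : Ω) p) V = 0 := ⟨_, rfl⟩
    have hZc : Z.card ≤ g j * (2 * N) := by
      have h2 : Z.card = (Z.image (pr (t : Ω))).card := by
        rw [Finset.card_image_of_injOn]
        intro p hpp q hq
        rw [Finset.mem_coe, hZ, Finset.mem_filter] at hpp hq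
        exact hinjX hpp.1 hq.1
      rw [h2]
      have hV0 : V ≠ 0 := by
        rintro rfl
        exact hGV (dvd_zero _)
      refine (hBEZ Ω (G j) V (hp.irr j).ne_zero hV0 (relPrime_of_not_dvd (hp.irr j) hGV) _ ?_).trans ?_
      · intro u hu
        rw [Finset.mem_image] at hu
        obtain ⟨p, hpZ, rfl⟩ := hu
        rw [hZ, Finset.mem_filter] at hpZ
        exact ⟨hGX p hpZ.1, hpZ.2⟩
      · rw [hp.deg]
        exact Nat.mul_le_mul_left _ (hV.trans hs)
    -- the ratio is an integer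
    obtain ⟨p, hpX, hpc, hpV⟩ : ∃ p ∈ X, cyc j p = 1 ∧ eval (pr (t : Ω) p) V ≠ 0 := by
      by_contra hcon
      push Not at hcon
      have h2 : ∀ p ∈ X, (2 : ℤ) - (if p ∈ Z then 1 else 0) ≤ cyc j p := by
        intro p hpX
        have h3 := hcyc1 p hpX
        split_ifs with h4
        · omega
        · have h5 : cyc j p ≠ 1 := fun h5 => h4 (by
            rw [hZ, Finset.mem_filter]
            exact ⟨hpX, hcon p hpX h5⟩)
          omega
      have h3 := Finset.sum_le_sum h2
      rw [Finset.sum_sub_distrib, Finset.sum_const, ← Finset.sum_filter, Finset.sum_const,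
        nsmul_eq_mul, nsmul_eq_mul, mul_one] at h3
      have h4 : X.filter (fun p => p ∈ Z) = Z := by
        ext p
        rw [Finset.mem_filter]
        constructor
        · exact fun h => h.2
        · intro h
          refine ⟨?_, h⟩
          rw [hZ, Finset.mem_filter] at h
          exact h.1
      rw [h4] at h3
      have h5 := h3.trans (hC.cycdeg j X)
      have h6 : 2 * X.card ≤ g j * d + Z.card := by
        have h7 : ((2 * X.card : ℕ) : ℤ) ≤ ((g j * d + Z.card : ℕ) : ℤ) := by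
          push_cast at h5 ⊢
          linarith
        exact_mod_cast h7
      nlinarith
    have haint : (a : Ω) = ((c p : ℤ) : Ω) := by
      have h2 := hval p hpX hpV
      rw [hpc, Int.cast_one, mul_one] at h2
      exact h2.symm
    refine ⟨c p, fun B hB => ?_⟩
    have hBZ : B ⊆ Z := by
      intro q hq
      obtain ⟨h2, h3, h4, h5⟩ := hB q hq
      have h6 : cyc j q ≠ 0 := by
        intro h6
        rw [h6, mul_zero] at h5
        exact hC.hcy j q h5 h3 h6
      have h7 : q ∈ X := (hXm q).2 ⟨h6, h4⟩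
      rw [hZ, Finset.mem_filter]
      refine ⟨h7, ?_⟩
      by_contra h8
      apply h5
      have h9 := hval q h7 h8
      rw [haint] at h9
      exact_mod_cast h9
    have h2 := (Finset.card_le_card hBZ).trans hZc
    nlinarith
  · -- all points are algebraic over a small field
    exfalso
    obtain ⟨S, hS⟩ : ∃ S, S = A.coeffs ∪ (G j).coeffs ∪ (U.coeffs ∪ V.coeffs) := ⟨_, rfl⟩
    let L := IntermediateField.adjoin ℚ (S : Set Ω)
    have hSL : ∀ x ∈ S, x ∈ Set.range (algebraMap L Ω) := fun x hx =>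
      ⟨⟨x, IntermediateField.subset_adjoin _ _ (Finset.mem_coe.2 hx)⟩, rfl⟩
    have hAL : (A.coeffs : Set Ω) ⊆ Set.range (algebraMap L Ω) := fun x hx => hSL x (by
      rw [hS]
      exact Finset.mem_union_left _ (Finset.mem_union_left _ hx))
    have hGL : ((G j).coeffs : Set Ω) ⊆ Set.range (algebraMap L Ω) := fun x hx => hSL x (by
      rw [hS]
      exact Finset.mem_union_left _ (Finset.mem_union_right _ hx))
    have hUL : (U.coeffs : Set Ω) ⊆ Set.range (algebraMap L Ω) := fun x hx => hSL x (by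
      rw [hS]
      exact Finset.mem_union_right _ (Finset.mem_union_left _ hx))
    have hVL : (V.coeffs : Set Ω) ⊆ Set.range (algebraMap L Ω) := fun x hx => hSL x (by
      rw [hS]
      exact Finset.mem_union_right _ (Finset.mem_union_right _ hx))
    obtain ⟨G0, hG0⟩ := exists_map hGL
    obtain ⟨U0, hU0⟩ := exists_map hUL
    obtain ⟨V0, hV0⟩ := exists_map hVL
    have hG00 : G0 ≠ 0 := by
      rintro rfl
      rw [map_zero] at hG0
      exact (hp.irr j).ne_zero hG0.symm
    have halg : ∀ p ∈ X, ∀ l, IsAlgebraic L (p l) := by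
      intro p hpX
      obtain ⟨a, haq⟩ : ∃ a : ℚ, a = (c p : ℚ) / (cyc j p : ℚ) := ⟨_, rfl⟩
      have hcne : (cyc j p : Ω) ≠ 0 := Int.cast_ne_zero.2 ((hXm p).1 hpX).1
      have ha : (a : Ω) * (cyc j p : Ω) = (c p : Ω) := by
        have h2 : a * (cyc j p : ℚ) = (c p : ℚ) := by
          rw [haq, div_mul_cancel₀]
          exact Int.cast_ne_zero.2 ((hXm p).1 hpX).1
        have h3 := congrArg (fun x : ℚ => (x : Ω)) h2
        push_cast at h3
        exact h3
      have hz : eval (pr (t : Ω) p) (U - C (a : Ω) * V) = 0 := by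
        rw [map_sub, map_mul, eval_C]
        apply mul_right_cancel₀ hcne
        rw [zero_mul, sub_mul, hkey p hpX, ← ha]
        ring
      have hnd : ¬ G j ∣ U - C (a : Ω) * V := fun h2 => hcase ⟨a, h2⟩
      have hmapB : map (algebraMap L Ω) (U0 - C ((a : ℚ) : L) * V0) = U - C (a : Ω) * V := by
        rw [map_sub, map_mul, map_C, hU0, hV0]
        congr 3
      have hB0 : U0 - C ((a : ℚ) : L) * V0 ≠ 0 := by
        intro h2
        rw [h2, map_zero] at hmapB
        exact hnd (hmapB ▸ dvd_zero _)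
      have hrp : IsRelPrime G0 (U0 - C ((a : ℚ) : L) * V0) := by
        refine relPrime_of_map (Ω := Ω) ?_ hG00
        rw [hG0, hmapB]
        exact relPrime_of_not_dvd (hp.irr j) hnd
      have h2 := hALG L Ω G0 _ hG00 hB0 hrp (pr (t : Ω) p)
        (by
          have h3 := hGX p hpX
          rw [← hG0, eval_map] at h3
          exact h3)
        (by
          have h3 := hz
          rw [← hmapB, eval_map] at h3
          exact h3)
      have hp1a : IsAlgebraic L (p 1) := h2 0
      have hpw : IsAlgebraic L (p 2 + (t : Ω) * p 3) := h2 1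
      have hpG := Pos.cyc0 hC j p ((hXm p).1 hpX).1
      have hp2a : IsAlgebraic L (p 2) := alg_second hAL hAM hp1a (hA p hpG.1)
      have ht0 : (t : Ω) ≠ 0 := by
        have : t ≠ 0 := by omega
        exact_mod_cast this
      have hp3a : IsAlgebraic L (p 3) := by
        have h3 : p 3 = (p 2 + (t : Ω) * p 3 - p 2) * ((t : Ω))⁻¹ := by
          field_simp
          ring
        rw [h3]
        refine (hpw.sub hp2a).mul (IsAlgebraic.inv ?_)
        have h4 : (t : Ω) = algebraMap L Ω (t : L) := by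
          rw [map_natCast]
        rw [h4]
        exact isAlgebraic_algebraMap _
      intro l
      fin_cases l
      · change IsAlgebraic L (p 0)
        rw [hpG.2.1]
        exact isAlgebraic_one
      · exact hp1a
      · exact hp2a
      · exact hp3a
    have hScard : S.card ≤ (N + 1) * (5 * N + 4) := by
      have h2 := support_card hAd
      have h3 := support_card (show (G j).totalDegree ≤ N by rw [hp.deg]; omega)
      have h4 := support_card (show U.totalDegree ≤ 2 * N by omega)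
      have h5 := support_card (show V.totalDegree ≤ 2 * N by omega)
      have h6 : S.card ≤ A.coeffs.card + (G j).coeffs.card + (U.coeffs.card + V.coeffs.card) := by
        rw [hS]
        exact (Finset.card_union_le _ _).trans (Nat.add_le_add (Finset.card_union_le _ _)
          (Finset.card_union_le _ _))
      nlinarith
    obtain ⟨Q, hQX, hQc⟩ : ∃ Q ⊆ X, Q.card = min (d + 1) X.card :=
      Finset.exists_subset_card_eq (min_le_right _ _)
    have h2 := hgen S Q (fun q hq => ⟨(Pos.cyc0 hC j q ((hXm q).1 (hQX hq)).1).1,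
      halg q (hQX hq)⟩) (by rw [hQc]; exact min_le_left _ _)
    rw [hQc] at h2
    have h3 : (N + 1) * (5 * N + 4) < d + 1 := by nlinarith
    have h4 : (N + 1) * (5 * N + 4) < X.card := by
      have h5 : g j * d ≤ X.card + g j * (1 + (h + g j)) := by omega
      obtain ⟨u, hu⟩ : ∃ u, d = u + (1 + (h + g j)) := ⟨d - (1 + (h + g j)), by
        have : 1 + (h + g j) ≤ d := by nlinarith
        omega⟩
      have h6 : g j * u ≤ X.card := by
        rw [hu] at h5
        nlinarith
      have h7 : u ≤ g j * u := Nat.le_mul_of_pos_left _ (by omega)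
      nlinarith
    have h5 : (N + 1) * (5 * N + 4) < min (d + 1) X.card := lt_min h3 h4
    omega

end

end Pool.Agent.N162.CV
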