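import Pool.Agent.N162.CV.Comb3

/-!
A cycle with a relation of high degree is an integral combination of intersections with curves.
-/

set_option autoImplicit false

open MvPolynomial

namespace Pool.Agent.N162.CV

section

variable {Ω : Type} [Field Ω]

theorem one_le_td {G : MvPolynomial (Fin 2) Ω} (hG : Irreducible G) : 1 ≤ G.totalDegree := by
  by_contra h
  have h1 : G.totalDegree = 0 := by omega
  have h2 := totalDegree_eq_zero_iff_eq_C.1 h1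
  by_cases h3 : G.coeff 0 = 0
  · rw [h3, C_0] at h2
    exact hG.ne_zero h2
  · apply hG.not_isUnit
    rw [h2]
    exact (isUnit_iff_ne_zero.2 h3).map C

variable {r : ℕ} {κ : (Fin 4 → Ω) → Ω} {m N d : ℕ} {c : (Fin 4 → Ω) →₀ ℤ} {g : Fin r → ℕ}
  {on : Fin r → (Fin 4 → Ω) → Prop} {cyc : Fin r → (Fin 4 → Ω) →₀ ℤ}

theorem mainA (hA1 : StA1) (hA2 : StA2) (hA3 : StA3) (hBEZ : StBEZ) [IsAlgClosed Ω] [CharZero Ω]
    (hC : Conf r κ m N d c g on cyc) {v : ℕ} (hv : (c.support.image c).card ≤ v)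
    (hvN : (v + 1) * (N + 1) < d) :
    ∃ (J : Finset (Fin r)) (a : Fin r → ℤ), ∑ i ∈ J, g i ≤ N ∧ c = ∑ j ∈ J, a j • cyc j := by
  classical
  obtain ⟨t, J, G, ht, hp⟩ := stepI hC
  have he := deg_le hA1 hA2 hC hp
  have h1 : ∀ j, ∃ a : ℤ, j ∈ J → ∀ B : Finset (Fin 4 → Ω), (∀ p ∈ B, p ∈ Gam c cyc ∧ on j p ∧
      (∀ i ∈ J, i ≠ j → ¬ on i p) ∧ c p ≠ a * cyc j p) →
      B.card + g j * (1 + ∑ i ∈ J, g i) < g j * d := by
    intro j
    by_cases hj : j ∈ J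
    · obtain ⟨a, ha⟩ := stepIIa hA3 hC hp he hv hvN j hj (by
        rw [← hp.deg]
        exact one_le_td (hp.irr j))
      exact ⟨a, fun _ => ha⟩
    · exact ⟨0, fun h => absurd h hj⟩
  choose a ha using h1
  exact ⟨J, a, he, stepIII hA3 hBEZ hC hp he a ha⟩

theorem mainB (hA1 : StA1) (hA2 : StA2) (hA3 : StA3) (hRT : StRT) (hBEZ : StBEZ) (hALG : StALG)
    [IsAlgClosed Ω] [CharZero Ω]
    (hC : Conf r κ m N d c g on cyc) (hd5 : 5 * (N + 1) ^ 2 < d)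
    {A : MvPolynomial (Fin 2) Ω} (hAM : MonicY A) (hAd : A.totalDegree ≤ N)
    (hA : ∀ p ∈ Gam c cyc, eval ![p 1, p 2] A = 0)
    (hgen : ∀ (S : Finset Ω) (Q : Finset (Fin 4 → Ω)), (∀ q ∈ Q, q ∈ Gam c cyc ∧
      ∀ j, IsAlgebraic (IntermediateField.adjoin ℚ (S : Set Ω)) (q j)) → Q.card ≤ d + 1 →
      Q.card ≤ S.card) :
    ∃ (J : Finset (Fin r)) (a : Fin r → ℤ), ∑ i ∈ J, g i ≤ N ∧ c = ∑ j ∈ J, a j • cyc j := by
  classical
  obtain ⟨t, J, G, ht, hp⟩ := stepI hC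
  have he := deg_le hA1 hA2 hC hp
  have h1 : ∀ j, ∃ a : ℤ, j ∈ J → ∀ B : Finset (Fin 4 → Ω), (∀ p ∈ B, p ∈ Gam c cyc ∧ on j p ∧
      (∀ i ∈ J, i ≠ j → ¬ on i p) ∧ c p ≠ a * cyc j p) →
      B.card + g j * (1 + ∑ i ∈ J, g i) < g j * d := by
    intro j
    by_cases hj : j ∈ J
    · obtain ⟨a, ha⟩ := stepIIb hA3 hRT hBEZ hALG hC hp ht he hd5 hAM hAd hA hgen j hj (by
        rw [← hp.deg]
        exact one_le_td (hp.irr j))
      exact ⟨a, fun _ => ha⟩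
    · exact ⟨0, fun h => absurd h hj⟩
  choose a ha using h1
  exact ⟨J, a, he, stepIII hA3 hBEZ hC hp he a ha⟩

end

end Pool.Agent.N162.CV
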