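import Pool.Agent.N162.CV.Comb4

/-!
Cycles of bounded total degree.
-/

set_option autoImplicit false

open MvPolynomial

namespace Pool.Agent.N162.CV

section

variable {Ω : Type} [Field Ω]

variable {r : ℕ} {κ : (Fin 4 → Ω) → Ω} {m N d : ℕ} {c : (Fin 4 → Ω) →₀ ℤ} {g : Fin r → ℕ}
  {on : Fin r → (Fin 4 → Ω) → Prop} {cyc : Fin r → (Fin 4 → Ω) →₀ ℤ} {t : Ω}
  {J : Finset (Fin r)} {G : Fin r → MvPolynomial (Fin 2) Ω}

/-- a value which is taken often -/
theorem of_value (hC : Conf r κ m N d c g on cyc) (hp : Pos r κ m N d c g on cyc t J G)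
    (j : Fin r) {a : ℤ}
    (ha2 : g j * (1 + ∑ i ∈ J, g i) < ((only J on c j).filter fun p => c p = a).card) :
    ∀ B : Finset (Fin 4 → Ω), (∀ p ∈ B, p ∈ Gam c cyc ∧ on j p ∧
      (∀ i ∈ J, i ≠ j → ¬ on i p) ∧ c p ≠ a * cyc j p) →
      B.card + g j * (1 + ∑ i ∈ J, g i) < g j * d := by
  classical
  intro B hB
  have honj : ∀ p ∈ only J on c j, on j p := by
    intro p h
    rw [mem_only] at h
    obtain ⟨i, hi, hi'⟩ := hp.cov p h.1
    have hij : i = j := by
      by_contra hij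
      exact h.2 i hi hij hi'
    rwa [← hij]
  obtain ⟨Y, hY⟩ : ∃ Y, Y = (only J on c j).filter fun p => c p = a := ⟨_, rfl⟩
  rw [← hY] at ha2
  have h5 := hC.cycdeg j (B ∪ Y)
  have h6 : ∀ p ∈ B ∪ Y, (1 : ℤ) + (if p ∈ B ∧ p ∈ Y then 1 else 0) ≤ cyc j p := by
    intro p hpp
    have hnn := hC.cycnn j p
    have hpos : cyc j p ≠ 0 := by
      rcases Finset.mem_union.1 hpp with h | h
      · obtain ⟨h7, h8, h9, h10⟩ := hB p h
        intro h11
        rw [h11, mul_zero] at h10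
        exact hC.hcy j p h10 h8 h11
      · rw [hY, Finset.mem_filter] at h
        exact hC.hcy j p (mem_only.1 h.1).1 (honj p h.1)
    split_ifs with h
    · obtain ⟨h7, h8, h9, h10⟩ := hB p h.1
      have h11 := h.2
      rw [hY, Finset.mem_filter] at h11
      have h12 : cyc j p ≠ 1 := by
        intro h12
        rw [h12, mul_one] at h10
        exact h10 h11.2
      omega
    · omega
  have h7 := Finset.sum_le_sum h6
  rw [Finset.sum_add_distrib] at h7
  have h8 : ∑ p ∈ B ∪ Y, (if p ∈ B ∧ p ∈ Y then (1 : ℤ) else 0) = (B ∩ Y).card := by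
    rw [← Finset.sum_filter, Finset.sum_const, nsmul_eq_mul, mul_one]
    congr 2
    ext p
    simp only [Finset.mem_filter, Finset.mem_union, Finset.mem_inter]
    tauto
  rw [h8, Finset.sum_const, nsmul_eq_mul, mul_one] at h7
  have h9 := Finset.card_union_add_card_inter B Y
  have h10 : ((B ∪ Y).card : ℤ) + (B ∩ Y).card = B.card + Y.card := by exact_mod_cast h9
  have h11 : (B.card + Y.card : ℤ) ≤ (g j * d : ℕ) := by linarith
  have h12 : B.card + Y.card ≤ g j * d := by exact_mod_cast h11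
  omega

/-- a function with many different values has a large sum -/
theorem sum_ge {ι : Type} (X : Finset ι) (f : ι → ℤ) (hf : ∀ p ∈ X, f p ≠ 0) {M : ℕ}
    (hM : ∀ a : ℤ, (X.filter fun p => f p = a).card ≤ M) (L : ℕ) :
    L * X.card ≤ ∑ p ∈ X, (f p).natAbs + M * (L * (L - 1)) := by
  classical
  have h1 : ∀ k : ℕ, (X.filter fun p => (f p).natAbs ≤ k).card ≤ 2 * k * M := by
    intro k
    have h2 : (X.filter fun p => (f p).natAbs ≤ k) ⊆
        ((Finset.Icc (-(k : ℤ)) k).erase 0).biUnion fun a => X.filter fun p => f p = a := by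
      intro p hp
      rw [Finset.mem_filter] at hp
      rw [Finset.mem_biUnion]
      refine ⟨f p, ?_, Finset.mem_filter.2 ⟨hp.1, rfl⟩⟩
      rw [Finset.mem_erase, Finset.mem_Icc]
      refine ⟨hf p hp.1, ?_, ?_⟩
      · omega
      · omega
    refine (Finset.card_le_card h2).trans ?_
    refine (Finset.card_biUnion_le_card_mul _ _ M fun a _ => hM a).trans ?_
    rw [Finset.card_erase_of_mem (by simp), Int.card_Icc]
    have h3 : ((k : ℤ) + 1 - -(k : ℤ)).toNat - 1 = 2 * k := by omega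
    rw [h3]
  have h2 : ∀ n : ℕ, L ≤ n + ∑ k ∈ Finset.range L, if n ≤ k then 1 else 0 := by
    intro n
    induction L with
    | zero => simp
    | succ L ih =>
      rw [Finset.sum_range_succ]
      split_ifs with h
      · omega
      · omega
  have h3 : L * X.card ≤ ∑ p ∈ X, ((f p).natAbs +
      ∑ k ∈ Finset.range L, if (f p).natAbs ≤ k then 1 else 0) := by
    rw [mul_comm, ← smul_eq_mul, ← Finset.sum_const]
    exact Finset.sum_le_sum fun p _ => h2 _
  rw [Finset.sum_add_distrib] at h3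
  refine h3.trans (Nat.add_le_add_left ?_ _)
  rw [Finset.sum_comm]
  have h4 : ∀ k ∈ Finset.range L, (∑ p ∈ X, if (f p).natAbs ≤ k then 1 else 0) ≤ 2 * k * M := by
    intro k _
    rw [← Finset.card_filter]
    exact h1 k
  refine (Finset.sum_le_sum h4).trans (le_of_eq ?_)
  have h5 := Finset.sum_range_id_mul_two L
  rw [← h5, Finset.sum_mul, Finset.mul_sum]
  refine Finset.sum_congr rfl fun k _ => ?_
  ring

theorem stepIIc (hA3 : StA3) [IsAlgClosed Ω] [CharZero Ω]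
    (hC : Conf r κ m N d c g on cyc) (hp : Pos r κ m N d c g on cyc t J G)
    (he : ∑ i ∈ J, g i ≤ N) {L : ℕ} (hL : ∑ p ∈ c.support, (c p).natAbs + (N + 1) * L ^ 2 < L * d)
    (j : Fin r) (hj : j ∈ J) (hgj : 1 ≤ g j) :
    ∃ a : ℤ, ∀ B : Finset (Fin 4 → Ω), (∀ p ∈ B, p ∈ Gam c cyc ∧ on j p ∧
      (∀ i ∈ J, i ≠ j → ¬ on i p) ∧ c p ≠ a * cyc j p) →
      B.card + g j * (1 + ∑ i ∈ J, g i) < g j * d := by
  classical
  obtain ⟨p0, hp0, hp1⟩ := hp.min j hj
  have honj : ∀ p ∈ only J on c j, on j p := by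
    intro p h
    rw [mem_only] at h
    obtain ⟨i, hi, hi'⟩ := hp.cov p h.1
    have hij : i = j := by
      by_contra hij
      exact h.2 i hi hij hi'
    rwa [← hij]
  have h1 := hp.card_only hA3 hC he hC.hcr (Pos.c0 hC) hj honj ⟨p0, mem_only.2 ⟨hp0, hp1⟩⟩
  by_contra hno
  push Not at hno
  have h2 : ∀ a : ℤ, ((only J on c j).filter fun p => c p = a).card ≤
      g j * (1 + ∑ i ∈ J, g i) := by
    intro a
    by_contra h
    push Not at h
    obtain ⟨B, hB, hB'⟩ := hno a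
    have := of_value hC hp j h B hB
    omega
  have h3 := sum_ge (only J on c j) c (fun p hpp => (mem_only.1 hpp).1) h2 L
  have h4 : ∑ p ∈ only J on c j, (c p).natAbs ≤ ∑ p ∈ c.support, (c p).natAbs :=
    Finset.sum_le_sum_of_subset fun p hpp => Finsupp.mem_support_iff.2 (mem_only.1 hpp).1
  obtain ⟨e, hedef⟩ : ∃ e, e = ∑ i ∈ J, g i := ⟨_, rfl⟩
  rw [← hedef] at h1 h3 he
  obtain ⟨s, hs⟩ : ∃ s, s = ∑ p ∈ c.support, (c p).natAbs := ⟨_, rfl⟩
  rw [← hs] at h4 hL
  obtain ⟨x, hx⟩ : ∃ x, x = (only J on c j).card := ⟨_, rfl⟩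
  rw [← hx] at h1 h3
  -- `L g (d - (1 + e)) ≤ s + g (1 + e) L (L - 1)`
  have h5 : L * (g j * d) ≤ L * x + L * (g j * (1 + e)) := by
    rw [← mul_add]
    exact Nat.mul_le_mul_left _ h1
  have h6 : L * (g j * d) ≤ s + g j * (1 + e) * (L * (L - 1)) + L * (g j * (1 + e)) := by
    refine h5.trans (Nat.add_le_add_right (h3.trans (Nat.add_le_add_right h4 _)) _)
  have h7 : g j * (1 + e) * (L * (L - 1)) + L * (g j * (1 + e)) = g j * (1 + e) * L ^ 2 := by
    rcases L with _ | L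
    · simp
    · rw [Nat.add_sub_cancel]
      ring
  have h8 : g j * (L * d) ≤ s + g j * ((N + 1) * L ^ 2) := by
    have h9 : g j * (1 + e) * L ^ 2 ≤ g j * ((N + 1) * L ^ 2) := by
      rw [mul_assoc]
      refine Nat.mul_le_mul_left _ (Nat.mul_le_mul_right _ (by omega))
    calc g j * (L * d) = L * (g j * d) := by ring
      _ ≤ s + g j * (1 + e) * L ^ 2 := by rw [← h7, ← add_assoc]; exact h6
      _ ≤ _ := Nat.add_le_add_left h9 _
  have h9 : g j * (s + (N + 1) * L ^ 2) < g j * (L * d) := Nat.mul_lt_mul_of_pos_left hL (by omega)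
  have h10 : s ≤ g j * s := Nat.le_mul_of_pos_left _ (by omega)
  rw [mul_add] at h9
  omega

theorem mainC (hA1 : StA1) (hA2 : StA2) (hA3 : StA3) (hBEZ : StBEZ) [IsAlgClosed Ω] [CharZero Ω]
    (hC : Conf r κ m N d c g on cyc) {L : ℕ}
    (hL : ∑ p ∈ c.support, (c p).natAbs + (N + 1) * L ^ 2 < L * d) :
    ∃ (J : Finset (Fin r)) (a : Fin r → ℤ), ∑ i ∈ J, g i ≤ N ∧ c = ∑ j ∈ J, a j • cyc j := by
  classical
  obtain ⟨t, J, G, ht, hp⟩ := stepI hC
  have he := deg_le hA1 hA2 hC hp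
  have h1 : ∀ j, ∃ a : ℤ, j ∈ J → ∀ B : Finset (Fin 4 → Ω), (∀ p ∈ B, p ∈ Gam c cyc ∧ on j p ∧
      (∀ i ∈ J, i ≠ j → ¬ on i p) ∧ c p ≠ a * cyc j p) →
      B.card + g j * (1 + ∑ i ∈ J, g i) < g j * d := by
    intro j
    by_cases hj : j ∈ J
    · obtain ⟨a, ha⟩ := stepIIc hA3 hC hp he hL j hj (by
        rw [← hp.deg]
        exact one_le_td (hp.irr j))
      exact ⟨a, fun _ => ha⟩
    · exact ⟨0, fun h => absurd h hj⟩
  choose a ha using h1
  exact ⟨J, a, he, stepIII hA3 hBEZ hC hp he a ha⟩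

end

end Pool.Agent.N162.CV
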