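import Mathlib

/-!
Statements on finite sets of points in the plane with a relation of high degree.
-/

set_option autoImplicit false

open MvPolynomial

namespace Pool.Agent.N162.CV

/-- A linear relation of degree `m` between the points `p i`, `i ∈ S`, of the affine plane. -/
def PRel {Ω ι : Type} [Field Ω] (m : ℕ) (S : Finset ι) (p : ι → Fin 2 → Ω) (lam : ι → Ω) : Prop :=
  ∀ P : MvPolynomial (Fin 2) Ω, P.totalDegree ≤ m → ∑ i ∈ S, lam i * eval (p i) P = 0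

/-- The polynomial `G` of degree `g` contains the monomial `Y ^ g`. -/
def MonicY {Ω : Type} [Field Ω] (G : MvPolynomial (Fin 2) Ω) : Prop :=
  G.coeff (Finsupp.single 1 G.totalDegree) ≠ 0

/-- CV/DIM -/
def StDIM : Prop := ∀ (Ω : Type) [Field Ω] (k : ℕ),
  FiniteDimensional Ω (restrictTotalDegree (Fin 2) Ω k) ∧
    2 * Module.finrank Ω (restrictTotalDegree (Fin 2) Ω k) = (k + 1) * (k + 2)

/-- CV/A1 -/
def StA1 : Prop := ∀ (Ω : Type) [Field Ω] [IsAlgClosed Ω] (ι : Type) (S : Finset ι)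
  (p : ι → Fin 2 → Ω) (lam : ι → Ω) (m : ℕ) (A B : MvPolynomial (Fin 2) Ω), S.Nonempty →
  Set.InjOn p S → (∀ i ∈ S, lam i ≠ 0) → PRel m S p lam → A ≠ 0 → B ≠ 0 → IsRelPrime A B →
  (∀ i ∈ S, eval (p i) A = 0 ∧ eval (p i) B = 0) → m + 3 ≤ A.totalDegree + B.totalDegree

/-- CV/A2 -/
def StA2 : Prop := ∀ (Ω : Type) [Field Ω] [IsAlgClosed Ω] (ι : Type) (S : Finset ι)
  (p : ι → Fin 2 → Ω) (lam : ι → Ω) (m N : ℕ), 1 ≤ N → 2 * N ^ 2 + 6 * N ≤ m →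
  S.card ≤ N * (m + 4) → Set.InjOn p S → (∀ i ∈ S, lam i ≠ 0) → PRel m S p lam →
  ∃ G : MvPolynomial (Fin 2) Ω, G ≠ 0 ∧ G.totalDegree ≤ N ∧ ∀ i ∈ S, eval (p i) G = 0

/-- CV/A3 -/
def StA3 : Prop := ∀ (Ω : Type) [Field Ω] [IsAlgClosed Ω] (ι : Type) (S : Finset ι)
  (p : ι → Fin 2 → Ω) (lam : ι → Ω) (m : ℕ) (G : MvPolynomial (Fin 2) Ω), S.Nonempty →
  Set.InjOn p S → (∀ i ∈ S, lam i ≠ 0) → PRel m S p lam → Irreducible G →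
  (∀ i ∈ S, eval (p i) G = 0) → 2 * G.totalDegree ≤ m + 2 →
  G.totalDegree * (m + 3) ≤ S.card + G.totalDegree ^ 2

/-- CV/RT -/
def StRT : Prop := ∀ (Ω : Type) [Field Ω] [IsAlgClosed Ω] (ι : Type) (S : Finset ι)
  (p : ι → Fin 2 → Ω) (lam mu : ι → Ω) (m h D : ℕ) (G : MvPolynomial (Fin 2) Ω), S.Nonempty →
  Set.InjOn p S → (∀ i ∈ S, mu i ≠ 0) → PRel m S p lam → PRel m S p mu → Irreducible G →
  (∀ i ∈ S, eval (p i) G = 0) → m + 4 + h = D → S.card ≤ G.totalDegree * D →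
  2 * h + 6 * G.totalDegree ≤ m →
  ∃ U V : MvPolynomial (Fin 2) Ω, U.totalDegree ≤ h + 2 * G.totalDegree ∧
    V.totalDegree ≤ h + 2 * G.totalDegree ∧ ¬ G ∣ V ∧
    ∀ i ∈ S, eval (p i) U * mu i = eval (p i) V * lam i

/-- CV/BEZ -/
def StBEZ : Prop := ∀ (Ω : Type) [Field Ω] [IsAlgClosed Ω] (A B : MvPolynomial (Fin 2) Ω),
  A ≠ 0 → B ≠ 0 → IsRelPrime A B → ∀ Q : Finset (Fin 2 → Ω),
  (∀ p ∈ Q, eval p A = 0 ∧ eval p B = 0) → Q.card ≤ A.totalDegree * B.totalDegree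

/-- CV/ALG -/
def StALG : Prop := ∀ (L Ω : Type) [Field L] [Field Ω] [Algebra L Ω]
  (A B : MvPolynomial (Fin 2) L), A ≠ 0 → B ≠ 0 → IsRelPrime A B → ∀ p : Fin 2 → Ω,
  aeval p A = 0 → aeval p B = 0 → ∀ j, IsAlgebraic L (p j)

/-- CV/GEN -/
def StGEN : Prop := ∀ (Ω : Type) [Field Ω] [CharZero Ω] [Algebra ℂ Ω] (d : ℕ) (F : MvPolynomial (Fin 4) ℂ),
  F.IsHomogeneous d →
  AlgebraicIndependent ℚ (fun e : {e : Fin 4 →₀ ℕ // e.degree = d} => F.coeff e) →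
  ∀ (S : Finset Ω) (Q : Finset (Fin 4 → Ω)), (∀ q ∈ Q, q 0 = 1) →
  (∀ q ∈ Q, ∀ j, IsAlgebraic (IntermediateField.adjoin ℚ (S : Set Ω)) (q j)) →
  (∀ q ∈ Q, aeval q F = 0) → Q.card ≤ d + 1 → Q.card ≤ S.card

/-- CV/B1 -/
def StB1 : Prop := ∀ (Ω : Type) [Field Ω] [Algebra ℂ Ω] [IsAlgClosed Ω] (ι : Type) (S : Finset ι)
  (q : ι → Fin 4 → Ω) (lam : ι → Ω) (m N : ℕ) (F : MvPolynomial (Fin 4) ℂ), S.Nonempty →
  (∀ i ∈ S, q i 0 = 1) → Set.InjOn q S → (∀ i ∈ S, lam i ≠ 0) →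
  (∀ P : MvPolynomial (Fin 4) Ω, P.IsHomogeneous m → ∑ i ∈ S, lam i * eval (q i) P = 0) →
  1 ≤ N → 2 * N ^ 2 + 6 * N ≤ m → S.card ≤ N * (m + 4) →
  (∃ o : Fin 4 → ℂ, o 0 = 0 ∧ eval o F ≠ 0) →
  ∃ (M M' : Matrix (Fin 4) (Fin 4) ℚ) (A B : MvPolynomial (Fin 2) Ω), M * M' = 1 ∧ M' * M = 1 ∧
    (∀ j, M 0 j = if j = 0 then 1 else 0) ∧ MonicY A ∧ MonicY B ∧
    1 ≤ A.totalDegree ∧ A.totalDegree ≤ N ∧ 1 ≤ B.totalDegree ∧ B.totalDegree ≤ N ∧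
    (∀ i ∈ S, eval ![∑ j, (M 1 j : Ω) * q i j, ∑ j, (M 2 j : Ω) * q i j] A = 0 ∧
      eval ![∑ j, (M 1 j : Ω) * q i j, ∑ j, (M 3 j : Ω) * q i j] B = 0) ∧
    eval (fun j => (M' j 3 : ℂ)) F ≠ 0

end Pool.Agent.N162.CV
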