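import Pool.Agent.N162.BC.Defs
import Pool.Agent.W603.LV.Ord
import Pool.Agent.Y184.NT.St
import Pool.Agent.Y184.NT.Base
import Pool.Agent.N162.CV.Pl

/-!
Statements on curves in space and their intersection with a smooth surface, in terms of function
fields: `E` is the function field of an irreducible curve over `Ω`, `X = (1, x, y, z)` are its
coordinates.
-/

set_option autoImplicit false

open FF Pool.Agent.W603.LV Pool.Agent.Y184.NT Pool.Agent.N162.BC IntermediateField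

namespace Pool.Agent.N162.CV

section

variable {Ω E : Type} [Field Ω] [Field E] [Algebra Ω E]

/-- The point `v` of the smooth model of the curve is mapped to the point `p` of affine space. -/
def At (v : Place Ω E) (X : Fin 4 → E) (p : Fin 4 → Ω) : Prop :=
  ∀ i, Ge v 1 (X i - algebraMap Ω E (p i))

/-- The total order of vanishing of `f` at the places over the point `p`. -/
noncomputable def mu (X : Fin 4 → E) (f : E) (p : Fin 4 → Ω) : ℤ :=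
  ∑ᶠ v ∈ {v : Place Ω E | At v X p}, v.ord f

/-- The coordinates of the curve are in good position: the poles of `x` are the poles of the
coordinates, and `y / x` and `z / x` are regular there. -/
structure Good (Ω : Type) {E : Type} [Field Ω] [Field E] [Algebra Ω E] (X : Fin 4 → E) : Prop where
  one : X 0 = 1
  tr : Transcendental Ω (X 1)
  fin : ∀ v : Place Ω E, Ge v 0 (X 1) → ∀ i, Ge v 0 (X i)
  inf : ∀ v : Place Ω E, v.ord (X 1) < 0 → ∀ i, Ge v 0 (X i / X 1)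
  gen : IntermediateField.adjoin Ω (Set.range X) = ⊤

/-- The value of the form `F` on the coordinates. -/
noncomputable def cmp (Ω : Type) {E : Type} [Field Ω] [Field E] [Algebra Ω E] [Algebra ℂ Ω]
    (F : MvPolynomial (Fin 4) ℂ) (X : Fin 4 → E) : E :=
  MvPolynomial.aeval X (MvPolynomial.map (algebraMap ℂ Ω) F)

end

/-- CV/TR: the value of the trace. -/
def StTR : Prop := ∀ (Ω E : Type) [Field Ω] [Field E] [Algebra Ω E] [IsAlgClosed Ω] [CharZero Ω]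
  [IsFF Ω E] (t : E), Transcendental Ω t → ∀ (u : E) (val : Place Ω E → Ω),
  (∀ v : Place Ω E, 0 < v.ord t → Ge v 1 (u - algebraMap Ω E (val v))) →
  ∀ S : Finset (Place Ω E), (∀ v, v ∈ S ↔ 0 < v.ord t) → ∀ v : Place Ω E, 0 < v.ord t →
    Ge v 1 (((Algebra.trace Ω⟮t⟯ E u : Ω⟮t⟯) : E) -
      algebraMap Ω E (∑ w ∈ S, (w.ord t : Ω) * val w))

/-- CV/LB: a local basis. -/
def StLB : Prop := ∀ (Ω E : Type) [Field Ω] [Field E] [Algebra Ω E] [IsAlgClosed Ω] [CharZero Ω]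
  [IsFF Ω E] (t : E), Transcendental Ω t → ∃ (n : ℕ) (b : Fin n → E),
  (∀ i, ∀ v : Place Ω E, 0 < v.ord t → Ge v 0 (b i)) ∧
  ∀ g : E, (∀ v : Place Ω E, 0 < v.ord t → Ge v 0 g) → ∃ a : Fin n → Ω⟮t⟯,
    (∀ i, ∀ v : Place Ω E, 0 < v.ord t → Ge v 0 ((a i : Ω⟮t⟯) : E)) ∧
      g = ∑ i, ((a i : Ω⟮t⟯) : E) * b i

/-- CV/RES: the residue theorem for simple poles. -/
def StRES : Prop := ∀ (Ω E : Type) [Field Ω] [Field E] [Algebra Ω E] [IsAlgClosed Ω] [CharZero Ω]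
  [IsFF Ω E] (x : E), Transcendental Ω x → ∀ (u : E) (a rho : Place Ω E → Ω),
  (∀ v : Place Ω E, Ge v 0 x → Ge v 1 (x - algebraMap Ω E (a v))) →
  (∀ v : Place Ω E, Ge v 0 x →
    Ge v 1 ((x - algebraMap Ω E (a v)) * u - algebraMap Ω E (rho v))) →
  (∀ v : Place Ω E, v.ord x < 0 → Ge v 1 (x * u)) →
  {v : Place Ω E | Ge v 0 x ∧ rho v ≠ 0}.Finite ∧
  (∀ Q : Finset (Place Ω E), (∀ v ∈ Q, Ge v 0 x) → (∀ v : Place Ω E, Ge v 0 x → rho v ≠ 0 → v ∈ Q) →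
    ∑ v ∈ Q, (v.ord (x - algebraMap Ω E (a v)) : Ω) * rho v = 0) ∧
  ((∀ v : Place Ω E, Ge v 0 x → rho v = 0) → Algebra.trace Ω⟮x⟯ E u = 0)

/-- CV/DER, part a: derivations which kill a function which vanishes at `v`. -/
def StDERa : Prop := ∀ (Ω E : Type) [Field Ω] [Algebra ℂ Ω] [Field E] [Algebra ℂ E] [Algebra Ω E]
  [IsScalarTower ℂ Ω E] [IsAlgClosed Ω] [IsFF Ω E] (D : Derivation ℂ Ω Ω) (δ : Derivation ℂ E E),
  (∀ a, δ (algebraMap Ω E a) = algebraMap Ω E (D a)) → ∀ (t : E) (v : Place Ω E), 0 < v.ord t →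
  δ t = 0 → ∀ (n : ℤ) (g : E), Ge v n g → Ge v n (δ g)

/-- CV/DER, part b: logarithmic derivatives. -/
def StDERb : Prop := ∀ (Ω E : Type) [Field Ω] [CharZero Ω] [Field E] [Algebra Ω E] [IsAlgClosed Ω]
  [IsFF Ω E] (δ : Derivation Ω E E) (t : E) (v : Place Ω E), 0 < v.ord t → δ t = 1 →
  ∀ g : E, g ≠ 0 → Ge v 1 ((v.ord t : E) * (t * δ g / g) - (v.ord g : E))

/-- CV/DER, part c: existence of derivations. -/
def StDERc : Prop := ∀ (Ω E : Type) [Field Ω] [Algebra ℂ Ω] [Field E] [Algebra ℂ E] [Algebra Ω E]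
  [IsScalarTower ℂ Ω E] [IsAlgClosed Ω] [IsFF Ω E] (x : E), Transcendental Ω x →
  (∃ δ : Derivation Ω E E, δ x = 1) ∧ ∀ D : Derivation ℂ Ω Ω, ∃ δ : Derivation ℂ E E,
    (∀ a, δ (algebraMap Ω E a) = algebraMap Ω E (D a)) ∧ δ x = 0

/-- CV/NF: the norm formula. -/
def StNF : Prop := ∀ (Ω E M : Type) [Field Ω] [IsAlgClosed Ω] [CharZero Ω] [Field E] [Algebra Ω E]
  [IsFF Ω E] [Field M] [Algebra Ω M] [IsFF Ω M] [Algebra E M] [IsScalarTower Ω E M]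
  [FiniteDimensional E M] (v : Place Ω E), ∃ T : Finset (Place Ω M),
  (∀ w : Place Ω M, w ∈ T ↔ ∀ h : E, Ge v 0 h → Ge w 0 (algebraMap E M h)) ∧
  ∀ g : M, g ≠ 0 → v.ord (Algebra.norm E g) = ∑ w ∈ T, w.ord g

/-- CV/C1: the number of the points of intersection. -/
def StC1 : Prop := ∀ (Ω E : Type) [Field Ω] [Field E] [Algebra Ω E] [IsAlgClosed Ω] [CharZero Ω]
  [IsFF Ω E] (X : Fin 4 → E), Good Ω X → ∀ (f : E) (d : ℕ), f ≠ 0 →
  (∀ v : Place Ω E, Ge v 0 (X 1) → Ge v 0 f) →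
  (∀ v : Place Ω E, v.ord (X 1) < 0 → Ge v 0 (f / X 1 ^ d)) →
  (∀ p : Fin 4 → Ω, 0 ≤ mu X f p) ∧
  (∀ p : Fin 4 → Ω, mu X f p ≠ 0 ↔ ∃ v : Place Ω E, At v X p ∧ 0 < v.ord f) ∧
  {p : Fin 4 → Ω | mu X f p ≠ 0}.Finite ∧
  ∀ Q : Finset (Fin 4 → Ω), ∑ p ∈ Q, mu X f p ≤ (Module.finrank Ω⟮X 1⟯ E * d : ℕ)

/-- CV/C2: the null trace of the intersection with a smooth surface. -/
def StC2 : Prop := ∀ (Ω E : Type) [Field Ω] [Algebra ℂ Ω] [Field E] [Algebra Ω E] [IsAlgClosed Ω]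
  [IsFF Ω E] (F : MvPolynomial (Fin 4) ℂ) (d m : ℕ), Sm F → F.IsHomogeneous d → m + 4 = d →
  MvPolynomial.eval ![0, 0, 0, 1] F ≠ 0 → ∀ X : Fin 4 → E, Good Ω X → cmp Ω F X ≠ 0 →
  ∀ (D : Fin 2 → Derivation ℂ Ω Ω) (c : (Fin 4 → Ω) → Fin 4 → Ω),
  (∀ p, p 0 = 1 → MvPolynomial.aeval p F = 0 →
    ∑ l, MvPolynomial.aeval p (MvPolynomial.pderiv l F) * c p l = 1) →
  ∀ P : MvPolynomial (Fin 4) Ω, P.IsHomogeneous m → ∀ Q : Finset (Fin 4 → Ω),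
  (∀ p, mu X (cmp Ω F X) p ≠ 0 → p ∈ Q) →
  ∑ p ∈ Q, (mu X (cmp Ω F X) p : Ω) * ((rows (c p) p D).det * MvPolynomial.eval p P) = 0

/-- CV/N: there are no moving curves of low degree on a smooth surface. -/
def StN : Prop := ∀ (Ω E : Type) [Field Ω] [Algebra ℂ Ω] [Field E] [Algebra Ω E] [IsAlgClosed Ω]
  [IsFF Ω E] (F : MvPolynomial (Fin 4) ℂ) (d : ℕ), Sm F → F.IsHomogeneous d →
  ∀ X : Fin 4 → E, Good Ω X → cmp Ω F X = 0 → Module.finrank Ω⟮X 1⟯ E + 3 ≤ d →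
  ∀ (D : Fin 2 → Derivation ℂ Ω Ω) (v : Place Ω E) (p c : Fin 4 → Ω), At v X p →
    (rows c p D).det = 0

/-- All algebraic relations between the coordinates `x` follow from the equation `F`. -/
def Relns {K : Type} [Field K] [Algebra ℂ K] (F : MvPolynomial (Fin 4) ℂ) (x : Fin 4 → K) : Prop :=
  ∀ P : MvPolynomial (Fin 4) ℂ, MvPolynomial.aeval x P = 0 → ∀ (L : Type) [Field L] [Algebra ℂ L]
    (q : Fin 4 → L), q 0 = 1 → MvPolynomial.aeval q F = 0 → MvPolynomial.aeval q P = 0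

/-- CV/IRR -/
def StIRR : Prop := ∀ (K : Type) [Field K] [Algebra ℂ K] (F : MvPolynomial (Fin 4) ℂ) (d : ℕ)
  (x : Fin 4 → K), Sm F → F.IsHomogeneous d → 2 ≤ d → x 0 = 1 → MvPolynomial.aeval x F = 0 →
  IntermediateField.adjoin ℂ (Set.range x) = ⊤ → Algebra.trdeg ℂ K = 2 → Relns F x

/-- CV/ND -/
def StND : Prop := ∀ (K Ω : Type) [Field K] [Algebra ℂ K] [Field Ω] [Algebra ℂ Ω]
  (F : MvPolynomial (Fin 4) ℂ) (d : ℕ) (x : Fin 4 → K), Sm F → F.IsHomogeneous d → 2 ≤ d →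
  x 0 = 1 → MvPolynomial.aeval x F = 0 → IntermediateField.adjoin ℂ (Set.range x) = ⊤ →
  Algebra.trdeg ℂ K = 2 → Relns F x → ∀ (D : Fin 2 → Derivation ℂ Ω Ω) (p c : Fin 4 → Ω),
  p 0 = 1 → MvPolynomial.aeval p F = 0 → (rows c p D).det ≠ 0 →
  ∃ σ : K →ₐ[ℂ] Ω, ∀ j, σ (x j) = p j

/-- CV/C3: the intersection of a curve with the surface is rationally equivalent to zero, modulo
cycles on fixed curves. -/
def StC3 : Prop := ∀ (K Ω E : Type) [Field K] [Algebra ℂ K] [Field Ω] [Algebra ℂ Ω] [Field E]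
  [Algebra Ω E] [IsAlgClosed Ω] [IsFF Ω E] (F : MvPolynomial (Fin 4) ℂ) (d : ℕ) (x : Fin 4 → K),
  Sm F → F.IsHomogeneous d → 2 ≤ d → MvPolynomial.eval ![0, 0, 0, 1] F ≠ 0 → x 0 = 1 →
  MvPolynomial.aeval x F = 0 → IntermediateField.adjoin ℂ (Set.range x) = ⊤ →
  Algebra.trdeg ℂ K = 2 → Relns F x → ∀ X : Fin 4 → E, Good Ω X → cmp Ω F X ≠ 0 →
  ∀ c : (K →ₐ[ℂ] Ω) →₀ ℤ, (∀ σ : K →ₐ[ℂ] Ω, c σ = mu X (cmp Ω F X) (fun j => σ (x j))) →
    c ∈ Rat K Ω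

/-- CV/CUR: the components of the curve `A(x, y) = B(x, z) = 0` and their projections. -/
def StCUR : Prop := ∀ (Ω : Type) [Field Ω] [IsAlgClosed Ω] [CharZero Ω]
  (A B : MvPolynomial (Fin 2) Ω), MonicY A → MonicY B → 1 ≤ A.totalDegree → 1 ≤ B.totalDegree →
  ∃ (r : ℕ) (E : Fin r → Type) (_ : ∀ i, Field (E i)) (_ : ∀ i, Algebra Ω (E i))
    (_ : ∀ i, IsFF Ω (E i)) (X : ∀ i, Fin 4 → E i), (∀ i, Good Ω (X i)) ∧
  (∀ i, MvPolynomial.aeval ![X i 1, X i 2] A = 0 ∧ MvPolynomial.aeval ![X i 1, X i 3] B = 0) ∧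
  (∀ p : Fin 4 → Ω, p 0 = 1 → MvPolynomial.eval ![p 1, p 2] A = 0 →
    MvPolynomial.eval ![p 1, p 3] B = 0 → ∃ i, ∃ v : Place Ω (E i), At v (X i) p) ∧
  (∑ i, Module.finrank Ω⟮X i 1⟯ (E i) ≤ A.totalDegree * B.totalDegree) ∧
  ∀ Γ : Finset (Fin 4 → Ω), (∀ p ∈ Γ, p 0 = 1) → ∃ bad : Finset Ω, ∀ t : Ω, t ∉ bad →
    ∃ G : Fin r → MvPolynomial (Fin 2) Ω,
      (∀ i, Irreducible (G i) ∧ MonicY (G i) ∧
        (G i).totalDegree = Module.finrank Ω⟮X i 1⟯ (E i) ∧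
        MvPolynomial.aeval ![X i 1, X i 2 + algebraMap Ω (E i) t * X i 3] (G i) = 0) ∧
      (∀ i j, i ≠ j → ¬ Associated (G i) (G j)) ∧
      ∀ i, ∀ p ∈ Γ, MvPolynomial.eval ![p 1, p 2 + t * p 3] (G i) = 0 →
        ∃ v : Place Ω (E i), At v (X i) p

end Pool.Agent.N162.CV
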