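import Pool.Agent.N162.CV.Stm
import Pool.Agent.N966.CV.A3
import Pool.Agent.N966.CV.Dim
import Pool.Agent.N169.CV.A2
import Pool.Agent.N31.CV.A1
import Pool.Agent.N401.CV.RT
import Pool.Agent.N490.CV.Gen
import Pool.Agent.N27.CV.B1
import Pool.Agent.N615.CV.Bez
import Pool.Agent.N615.CV.Alg
import Pool.Agent.N717.CV.Tr
import Pool.Agent.N861.CV.Res
import Pool.Agent.N247.CV.Der
import Pool.Agent.N75.CV.NF
import Pool.Agent.N944.CV.C1
import Pool.Agent.N849.CV.C2
import Pool.Agent.N624.CV.N4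
import Pool.Agent.N225.CV.Irr
import Pool.Agent.N225.CV.Nd
import Pool.Agent.N141.CV.C3
import Pool.Agent.N558.CV.Cur

/-!
The proofs of the statements.
-/

set_option autoImplicit false

namespace Pool.Agent.N162.CV

theorem fDIM : StDIM := Pool.Agent.N966.CV.dim_
theorem fA1 : StA1 := Pool.Agent.N31.CV.a1_
theorem fA2 : StA2 := Pool.Agent.N169.CV.a2_ fA1 fDIM
theorem fA3 : StA3 := Pool.Agent.N966.CV.a3_ fA1 fDIM
theorem fRT : StRT := Pool.Agent.N401.CV.rt_ fA1 fDIM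
theorem fBEZ : StBEZ := Pool.Agent.N615.CV.bez_ fDIM
theorem fALG : StALG := Pool.Agent.N615.CV.alg_
theorem fGEN : StGEN := Pool.Agent.N490.CV.gen_
theorem fB1 : StB1 := Pool.Agent.N27.CV.b1_ fA2
theorem fTR : StTR := Pool.Agent.N717.CV.tr_
theorem fLB : StLB := Pool.Agent.N717.CV.lb_
theorem fRES : StRES := Pool.Agent.N861.CV.res_ fTR
theorem fDERa : StDERa := Pool.Agent.N247.CV.dera_ fLB
theorem fDERb : StDERb := Pool.Agent.N247.CV.derb_
theorem fDERc : StDERc := Pool.Agent.N247.CV.derc_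
theorem fNF : StNF := Pool.Agent.N75.CV.nf_
theorem fC1 : StC1 := Pool.Agent.N944.CV.c1_
theorem fC2 : StC2 := Pool.Agent.N849.CV.c2_ fDERa fDERb fDERc fRES
theorem fN : StN := Pool.Agent.N624.CV.n_ fDERa fDERb fDERc fRES
theorem fIRR : StIRR := Pool.Agent.N225.CV.irr_
theorem fND : StND := Pool.Agent.N225.CV.nd_
theorem fC3 : StC3 := Pool.Agent.N141.CV.c3_ fNF
theorem fCUR : StCUR := Pool.Agent.N558.CV.cur_

end Pool.Agent.N162.CV
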