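import Pool.Agent.N162.CV.Stm
import Pool.Agent.N162.CV.Base

/-!
Values of polynomials at the points of a curve.
-/

set_option autoImplicit false

open FF Pool.Agent.W603.LV Pool.Agent.Y184.NT Pool.Agent.N162.BC MvPolynomial

namespace Pool.Agent.N162.CV

section

variable {Ω E : Type} [Field Ω] [Field E] [Algebra Ω E]

theorem ge_const_zero {v : Place Ω E} {a : Ω} (h : Ge v 1 (algebraMap Ω E a)) : a = 0 := by
  by_contra ha
  rcases h with h | h
  · exact ha ((map_eq_zero _).1 h)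
  · rw [v.ord_const ha] at h
    omega

theorem ge_of_sub {v : Place Ω E} {f : E} {a : Ω} (h : Ge v 1 (f - algebraMap Ω E a)) :
    Ge v 0 f := by
  have h1 := (h.mono (by norm_num : (0 : ℤ) ≤ 1)).add (Ge.const (P := v) a)
  rwa [sub_add_cancel] at h1

theorem ge_aeval_sub {ι : Type} {v : Place Ω E} {Y : ι → E} {y : ι → Ω}
    (h : ∀ i, Ge v 1 (Y i - algebraMap Ω E (y i))) (P : MvPolynomial ι Ω) :
    Ge v 1 (aeval Y P - algebraMap Ω E (eval y P)) := by
  induction P using MvPolynomial.induction_on with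
  | C a =>
    rw [aeval_C, eval_C, sub_self]
    exact Ge.zero
  | add P Q hP hQ =>
    rw [map_add, map_add, map_add]
    have h1 := hP.add hQ
    convert h1 using 1
    ring
  | mul_X P i hP =>
    rw [map_mul, map_mul, map_mul, aeval_X, eval_X]
    have h1 := hP.mul (ge_of_sub (h i))
    have h2 := (Ge.const (P := v) (eval y P)).mul (h i)
    rw [add_zero] at h1
    rw [zero_add] at h2
    have h3 := Ge.add h1 h2
    convert h3 using 1
    ring

theorem ge_aeval {ι : Type} {v : Place Ω E} {Y : ι → E} (h : ∀ i, Ge v 0 (Y i))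
    (P : MvPolynomial ι Ω) : Ge v 0 (aeval Y P) := by
  induction P using MvPolynomial.induction_on with
  | C a =>
    rw [aeval_C]
    exact Ge.const a
  | add P Q hP hQ =>
    rw [map_add]
    exact hP.add hQ
  | mul_X P i hP =>
    rw [map_mul, aeval_X]
    have h1 := hP.mul (h i)
    rwa [add_zero] at h1

theorem eval_zero_of {ι : Type} {v : Place Ω E} {Y : ι → E} {y : ι → Ω}
    (h : ∀ i, Ge v 1 (Y i - algebraMap Ω E (y i))) {P : MvPolynomial ι Ω}
    (hP : Ge v 1 (aeval Y P)) : eval y P = 0 := by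
  apply ge_const_zero (v := v)
  have h1 := hP.sub (ge_aeval_sub h P)
  rwa [sub_sub_cancel] at h1

theorem ge_of_eval {ι : Type} {v : Place Ω E} {Y : ι → E} {y : ι → Ω}
    (h : ∀ i, Ge v 1 (Y i - algebraMap Ω E (y i))) {P : MvPolynomial ι Ω}
    (hP : eval y P = 0) : Ge v 1 (aeval Y P) := by
  have h1 := ge_aeval_sub h P
  rwa [hP, map_zero, sub_zero] at h1

theorem At.pr {v : Place Ω E} {X : Fin 4 → E} {p : Fin 4 → Ω} (h : At v X p) (t : Ω) (i : Fin 2) :
    Ge v 1 ((![X 1, X 2 + algebraMap Ω E t * X 3] : Fin 2 → E) i -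
      algebraMap Ω E (CV.pr t p i)) := by
  refine Fin.cases ?_ (fun i => ?_) i
  · exact h 1
  · fin_cases i
    change Ge v 1 (X 2 + algebraMap Ω E t * X 3 - algebraMap Ω E (p 2 + t * p 3))
    have h1 := (Ge.const (P := v) t).mul (h 3)
    have h2 := (h 2).add (h1.mono (by norm_num : (1 : ℤ) ≤ 0 + 1))
    convert h2 using 1
    rw [map_add, map_mul]
    ring

theorem aeval_smul {ι : Type} {d : ℕ} {F : MvPolynomial ι Ω} (hh : F.IsHomogeneous d) (c : E)
    (y : ι → E) : aeval (fun l => c * y l) F = c ^ d * aeval y F := by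
  classical
  rw [aeval_def, eval₂_eq, aeval_def, eval₂_eq, Finset.mul_sum]
  refine Finset.sum_congr rfl fun a ha => ?_
  have h1 : ∑ i ∈ a.support, a i = d := by
    have h2 := hh (mem_support_iff.1 ha)
    rw [← h2, Finsupp.weight_apply]
    simp [Finsupp.sum]
  simp only [mul_pow, Finset.prod_mul_distrib]
  rw [Finset.prod_pow_eq_pow_sum, h1]
  ring

variable [Algebra ℂ Ω]

theorem aeval_eq (p : Fin 4 → Ω) (F : MvPolynomial (Fin 4) ℂ) :
    aeval p F = eval p (map (algebraMap ℂ Ω) F) := by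
  rw [eval_map, aeval_def]

theorem Good.zero {X : Fin 4 → E} (hX : Good Ω X) {v : Place Ω E} {p : Fin 4 → Ω}
    (h : At v X p) : p 0 = 1 := by
  have h1 := h 0
  rw [hX.one, ← map_one (algebraMap Ω E), ← map_sub] at h1
  exact (sub_eq_zero.1 (ge_const_zero h1)).symm

theorem cmp_fin {X : Fin 4 → E} (hX : Good Ω X) (F : MvPolynomial (Fin 4) ℂ) (v : Place Ω E)
    (hv : Ge v 0 (X 1)) : Ge v 0 (cmp Ω F X) :=
  ge_aeval (hX.fin v hv) _

theorem cmp_inf {X : Fin 4 → E} (hX : Good Ω X) {F : MvPolynomial (Fin 4) ℂ} {d : ℕ}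
    (hF : F.IsHomogeneous d) (v : Place Ω E) (hv : v.ord (X 1) < 0) :
    Ge v 0 (cmp Ω F X / X 1 ^ d) := by
  have h0 : X 1 ≠ 0 := by
    intro h
    rw [h, v.ord_zero] at hv
    omega
  have h1 := aeval_smul (hF.map (algebraMap ℂ Ω)) (X 1) (fun i => X i / X 1)
  have h2 : (fun l => X 1 * (X l / X 1)) = X := by
    funext l
    rw [mul_div_cancel₀ _ h0]
  rw [h2] at h1
  unfold cmp
  rw [h1, mul_div_cancel_left₀ _ (pow_ne_zero _ h0)]
  exact ge_aeval (hX.inf v hv) _

theorem cmp_at {X : Fin 4 → E} {F : MvPolynomial (Fin 4) ℂ} {v : Place Ω E} {p : Fin 4 → Ω}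
    (h : At v X p) : aeval p F = 0 ↔ Ge v 1 (cmp Ω F X) := by
  rw [aeval_eq]
  exact ⟨fun h1 => ge_of_eval h h1, fun h1 => eval_zero_of h h1⟩

end

end Pool.Agent.N162.CV
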